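import Mathlib

set_option autoImplicit false

/-! Two elementary size estimates used for the norm form of a complex cubic order. -/

namespace Pool.Agent.H967R2.NRS

theorem case1core (D R ρ u v A X I : ℝ) (W Y Z : ℤ) (hD1 : 1 ≤ D) (hR : 64 * D ^ 3 ≤ R) (hρ : 0 < ρ)
    (h1 : ρ * R ^ 2 = 1) (h2 : R ^ 2 = u ^ 2 + v ^ 2) (hv : 1 / 4 ≤ v ^ 2)
    (hAe : A = W + Y * ρ + Z * R ^ 2) (hXe : X = W + (Y + ρ * Z) * u) (hIe : I = (Y - ρ * Z) * v)
    (hA1 : D ≤ |A|) (hA2 : |A| < D * R ^ 2) (hN : |A| * (X ^ 2 + I ^ 2) < D ^ 3) :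
    Y = 0 ∧ (W = 0 ∨ Z = 0) := by
  have hD3 : D ≤ D ^ 3 := by nlinarith [mul_nonneg (by linarith : (0:ℝ) ≤ D) (by nlinarith : (0:ℝ) ≤ D^2 - 1)]
  have hR64 : 64 ≤ R := by linarith
  have hRD : 64 * D ≤ R := by linarith
  have hR0 : 0 < R := by linarith
  have hA0 : 0 < |A| := by linarith
  have hXI : X ^ 2 + I ^ 2 < D ^ 2 := by
    by_contra hcon
    push Not at hcon
    nlinarith [mul_le_mul hA1 hcon (by positivity) hA0.le]
  have hX1 : |X| < D := by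
    rw [← abs_of_pos (by linarith : (0:ℝ) < D)]
    apply sq_lt_sq.mp
    nlinarith [sq_nonneg I]
  have hI1 : |I| < D := by
    rw [← abs_of_pos (by linarith : (0:ℝ) < D)]
    apply sq_lt_sq.mp
    nlinarith [sq_nonneg X]
  have hv2 : 1 / 2 ≤ |v| := by
    have : |(1/2 : ℝ)| ≤ |v| := by
      apply sq_le_sq.mp; linarith
    rwa [abs_of_pos (by norm_num : (0:ℝ) < 1/2)] at this
  have hu : |u| ≤ R := by
    rw [← abs_of_pos hR0]
    apply sq_le_sq.mp; nlinarith [sq_nonneg v]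
  have hρR : ρ * R ≤ 1 / 64 := by
    have : ρ * R * R = 1 := by linarith
    by_contra hcon
    push Not at hcon
    nlinarith
  have hρs : ρ ≤ 1 / 64 := by nlinarith
  have hρD : ρ * D ≤ 1 / 4096 := by nlinarith
  set θ : ℝ := Y - ρ * Z with hθ
  have hθ1 : |θ| < 2 * D := by
    have : |θ| * |v| < D := by rw [← abs_mul, ← hIe]; exact hI1
    nlinarith [abs_nonneg θ]
  have hZe : Z * (R ^ 2 + ρ ^ 2 - 2 * ρ * u) = A - X - θ * (ρ - u) := by
    rw [hAe, hXe, hθ]; ring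
  have hu1 := abs_le.mp hu
  have hcoef : R ^ 2 - 1 ≤ R ^ 2 + ρ ^ 2 - 2 * ρ * u := by
    nlinarith [mul_le_mul_of_nonneg_left hu1.2 hρ.le]
  have hZ : |(Z : ℝ)| < 2 * D := by
    have e1 : |(Z : ℝ)| * (R ^ 2 - 1) ≤ |A| + |X| + |θ| * (R + 1) := by
      calc |(Z : ℝ)| * (R ^ 2 - 1) ≤ |(Z : ℝ)| * |R ^ 2 + ρ ^ 2 - 2 * ρ * u| := by
            apply mul_le_mul_of_nonneg_left _ (abs_nonneg _)
            exact hcoef.trans (le_abs_self _)
        _ = |A - X - θ * (ρ - u)| := by rw [← abs_mul, hZe]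
        _ ≤ |A - X| + |θ * (ρ - u)| := abs_sub _ _
        _ ≤ |A| + |X| + |θ| * (R + 1) := by
            rw [abs_mul]
            have := abs_sub A X
            have h3 : |ρ - u| ≤ R + 1 := by
              calc |ρ - u| ≤ |ρ| + |u| := abs_sub _ _
                _ ≤ R + 1 := by rw [abs_of_pos hρ]; linarith
            nlinarith [abs_nonneg θ, mul_le_mul_of_nonneg_left h3 (abs_nonneg θ)]
    by_contra hcon
    push Not at hcon
    nlinarith [mul_le_mul_of_nonneg_right hcon (by nlinarith : (0:ℝ) ≤ R ^ 2 - 1),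
      mul_le_mul_of_nonneg_right hθ1.le (by linarith : (0:ℝ) ≤ R + 1)]
  have hρZ : ρ * |(Z : ℝ)| ≤ 1 / 64 := by nlinarith [abs_nonneg (Z : ℝ)]
  have hρZ' : |ρ * (Z : ℝ)| ≤ 1 / 64 := by rw [abs_mul, abs_of_pos hρ]; exact hρZ
  have hone : ∀ x : ℤ, x ≠ 0 → (1 : ℝ) ≤ |(x : ℝ)| := by
    intro x hx
    have : (1 : ℤ) ≤ |x| := Int.one_le_abs hx
    exact_mod_cast this
  have hY0 : Y = 0 := by
    by_contra hY
    have hY1 := hone Y hY
    have hYθ : |(Y : ℝ)| ≤ |θ| + |ρ * Z| := by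
      have : (Y : ℝ) = θ + ρ * Z := by rw [hθ]; ring
      calc |(Y : ℝ)| = |θ + ρ * Z| := by rw [← this]
        _ ≤ _ := abs_add_le _ _
    have hθ2 : 1 / 2 ≤ |θ| := by linarith
    have hI2 : 1 / 16 ≤ I ^ 2 := by
      have : 1 / 4 ≤ |I| := by
        rw [hIe, abs_mul]
        nlinarith [abs_nonneg v]
      rw [← sq_abs]
      nlinarith
    have hAs : |A| < 16 * D ^ 3 := by nlinarith [sq_nonneg X]
    have hvD : |v| < 2 * D := by
      have : |θ| * |v| < D := by rw [← abs_mul, ← hIe]; exact hI1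
      nlinarith [abs_nonneg v]
    have huR : R / 2 ≤ |u| := by
      have hv4 : v ^ 2 ≤ 4 * D ^ 2 := by
        rw [← sq_abs]; nlinarith [abs_nonneg v]
      rw [← abs_of_pos (by linarith : (0:ℝ) < R / 2)]
      apply sq_le_sq.mp
      nlinarith
    by_cases hZ0 : Z = 0
    · have e1 : (Y : ℝ) * (u - ρ) = X - A := by
        rw [hXe, hAe, hZ0]; push_cast; ring
      have e2 : |(Y : ℝ)| * |u - ρ| ≤ |X| + |A| := by
        rw [← abs_mul, e1]; exact abs_sub _ _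
      have e3 : R / 2 - 1 ≤ |u - ρ| := by
        have := abs_sub_abs_le_abs_sub u ρ
        rw [abs_of_pos hρ] at this
        linarith
      nlinarith [mul_le_mul hY1 e3 (by linarith) (abs_nonneg _)]
    · have hZ1 := hone Z hZ0
      have e1 : (Z : ℝ) * R ^ 2 = A - X + (Y + ρ * Z) * u - Y * ρ := by
        rw [hXe, hAe]; ring
      have e2 : |(Z : ℝ)| * R ^ 2 ≤ |A| + |X| + (2 * D + 2) * R + (2 * D + 1) := by
        have hY2 : |(Y : ℝ)| ≤ 2 * D + 1 := by linarith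
        have hY3 : |(Y : ℝ) + ρ * Z| ≤ 2 * D + 2 := by
          calc |(Y : ℝ) + ρ * Z| ≤ |(Y : ℝ)| + |ρ * Z| := abs_add_le _ _
            _ ≤ _ := by linarith
        calc |(Z : ℝ)| * R ^ 2 = |(Z : ℝ) * R ^ 2| := by rw [abs_mul, abs_of_pos (by positivity : 0 < R ^ 2)]
          _ = |A - X + (Y + ρ * Z) * u - Y * ρ| := by rw [e1]
          _ ≤ |A - X + (Y + ρ * Z) * u| + |(Y : ℝ) * ρ| := abs_sub _ _
          _ ≤ |A - X| + |(Y + ρ * Z) * u| + |(Y : ℝ) * ρ| := by gcongr; exact abs_add_le _ _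
          _ ≤ |A| + |X| + (2 * D + 2) * R + (2 * D + 1) * 1 := by
              rw [abs_mul, abs_mul, abs_of_pos hρ]
              gcongr
              · exact abs_sub _ _
              · linarith
          _ = _ := by ring
      nlinarith
  refine ⟨hY0, ?_⟩
  by_contra hcon
  push Not at hcon
  obtain ⟨hW, hZ0⟩ := hcon
  have hW1 := hone W hW
  have hZ1 := hone Z hZ0
  have hXe' : X = W + ρ * Z * u := by rw [hXe, hY0]; push_cast; ring
  have hs : |ρ * Z * u| ≤ 1 / 32 := by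
    rw [abs_mul, abs_mul, abs_of_pos hρ]
    have : ρ * |(Z : ℝ)| * |u| ≤ ρ * (2 * D) * R := by gcongr
    nlinarith
  have hX2 : 1 / 2 ≤ |X| := by
    have : |(W : ℝ)| ≤ |X| + |ρ * Z * u| := by
      have e : (W : ℝ) = X - ρ * Z * u := by rw [hXe']; ring
      calc |(W : ℝ)| = |X - ρ * Z * u| := by rw [← e]
        _ ≤ _ := abs_sub _ _
    linarith
  have hWb : |(W : ℝ)| ≤ D + 1 := by
    have : |(W : ℝ)| ≤ |X| + |ρ * Z * u| := by
      have e : (W : ℝ) = X - ρ * Z * u := by rw [hXe']; ring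
      calc |(W : ℝ)| = |X - ρ * Z * u| := by rw [← e]
        _ ≤ _ := abs_sub _ _
    linarith
  have hX4 : 1 / 4 ≤ X ^ 2 := by rw [← sq_abs]; nlinarith
  have hAs : |A| < 4 * D ^ 3 := by nlinarith [sq_nonneg I]
  have e1 : (Z : ℝ) * R ^ 2 = A - W := by rw [hAe, hY0]; push_cast; ring
  have e2 : |(Z : ℝ)| * R ^ 2 ≤ |A| + |(W : ℝ)| := by
    calc |(Z : ℝ)| * R ^ 2 = |(Z : ℝ) * R ^ 2| := by rw [abs_mul, abs_of_pos (by positivity : 0 < R ^ 2)]
      _ = |A - W| := by rw [e1]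
      _ ≤ _ := abs_sub _ _
  nlinarith

/-- Case 2: `b = t²`, `a = 2 t`; `m = R` is the real value of `μ = λ - t`, where `A = W' + Y μ + Z μ²`. -/
theorem case2core (D R ρ u v A X I : ℝ) (W Y Z t : ℤ) (hD1 : 1 ≤ D) (hR : 64 * D ^ 3 ≤ R) (hρ : 0 < ρ)
    (h1 : ρ * R ^ 2 = 1) (h2 : u = ρ / 2 - R) (hv : v ^ 2 = ρ * R - ρ ^ 2 / 4)
    (ht : (t : ℝ) = u + ρ / 2)
    (hAe : A = W + Y * ρ + Z * R ^ 2) (hXe : X = W + (Y + ρ * Z) * u) (hIe : I = (Y - ρ * Z) * v)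
    (hA1 : D ≤ |A|) (hA2 : |A| < D * R) (hN : |A| * (X ^ 2 + I ^ 2) < D ^ 3) :
    Z = 0 ∧ (W + t * Y = 0 ∨ Y = 0) := by
  have hD3 : D ≤ D ^ 3 := by nlinarith [mul_nonneg (by linarith : (0:ℝ) ≤ D) (by nlinarith : (0:ℝ) ≤ D^2 - 1)]
  have hD23 : D ^ 2 ≤ D ^ 3 := by nlinarith [sq_nonneg D]
  have hR64 : 64 ≤ R := by linarith
  have hRD : 64 * D ≤ R := by linarith
  have hR0 : 0 < R := by linarith
  have hA0 : 0 < |A| := by linarith
  have hXI : X ^ 2 + I ^ 2 < D ^ 2 := by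
    by_contra hcon
    push Not at hcon
    nlinarith [mul_le_mul hA1 hcon (by positivity) hA0.le]
  have hX1 : |X| < D := by
    rw [← abs_of_pos (by linarith : (0:ℝ) < D)]
    apply sq_lt_sq.mp
    nlinarith [sq_nonneg I]
  have hI2 : I ^ 2 < D ^ 2 := by nlinarith [sq_nonneg X]
  have hρR : ρ * R * R = 1 := by linarith
  have hρR1 : ρ * R ≤ 1 / 64 := by
    by_contra hcon
    push Not at hcon
    nlinarith
  have hρs : ρ ≤ 1 / 64 := by nlinarith
  have hρD : ρ * D ≤ 1 / 4096 := by nlinarith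
  set θ : ℝ := Y - ρ * Z with hθ
  -- bound on θ
  have hvl : ρ * R / 2 ≤ v ^ 2 := by nlinarith
  have hθ2 : θ ^ 2 < R ^ 2 / 25 := by
    have e1 : θ ^ 2 * v ^ 2 < D ^ 2 := by
      have : I ^ 2 = θ ^ 2 * v ^ 2 := by rw [hIe]; ring
      linarith
    have e2 : θ ^ 2 * (ρ * R / 2) < D ^ 2 :=
      lt_of_le_of_lt (mul_le_mul_of_nonneg_left hvl (sq_nonneg θ)) e1
    have e3 : θ ^ 2 < 2 * D ^ 2 * R := by
      have : θ ^ 2 * (ρ * R / 2) * R < D ^ 2 * R := mul_lt_mul_of_pos_right e2 hR0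
      have e4 : θ ^ 2 * (ρ * R / 2) * R = θ ^ 2 / 2 * (ρ * R * R) := by ring
      rw [e4, hρR] at this
      linarith
    have e4 : D ^ 2 ≤ R / 64 := by linarith
    nlinarith
  have hθ1 : |θ| < R / 5 := by
    rw [← abs_of_pos (by linarith : (0:ℝ) < R / 5)]
    apply sq_lt_sq.mp
    nlinarith
  have hone : ∀ x : ℤ, x ≠ 0 → (1 : ℝ) ≤ |(x : ℝ)| := by
    intro x hx
    have : (1 : ℤ) ≤ |x| := Int.one_le_abs hx
    exact_mod_cast this
  have hZe : Z * (R ^ 2 + 2 * (ρ * R)) = A - X - θ * (R + ρ / 2) := by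
    rw [hAe, hXe, hθ, h2]; ring
  have hZ0 : Z = 0 := by
    by_contra hZ
    have hZ1 := hone Z hZ
    have e1 : R ^ 2 ≤ |A| + |X| + |θ| * (R + 1) := by
      calc R ^ 2 ≤ |(Z : ℝ)| * |R ^ 2 + 2 * (ρ * R)| := by
            have e0 : 0 < ρ * R := by positivity
            rw [abs_of_pos (by positivity : 0 < R ^ 2 + 2 * (ρ * R))]
            nlinarith [mul_le_mul hZ1 (by nlinarith : R ^ 2 ≤ R ^ 2 + 2 * (ρ * R)) (by positivity) (abs_nonneg _)]
        _ = |A - X - θ * (R + ρ / 2)| := by rw [← abs_mul, hZe]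
        _ ≤ |A - X| + |θ * (R + ρ / 2)| := abs_sub _ _
        _ ≤ |A| + |X| + |θ| * (R + 1) := by
            rw [abs_mul, abs_of_pos (by positivity : 0 < R + ρ / 2)]
            have := abs_sub A X
            have h3 : R + ρ / 2 ≤ R + 1 := by linarith
            nlinarith [mul_le_mul_of_nonneg_left h3 (abs_nonneg θ)]
    nlinarith
  refine ⟨hZ0, ?_⟩
  subst hZ0
  simp only [Int.cast_zero, mul_zero, zero_mul, add_zero, sub_zero] at *
  -- now `A = W + Y ρ`, `X = W + Y u`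
  set W' : ℤ := W + t * Y with hW'
  have hWe : (W' : ℝ) = W + (u + ρ / 2) * Y := by rw [hW']; push_cast; rw [ht]
  have hAe' : A = W' + Y * R := by rw [hAe, hWe, h2]; ring
  have hXe' : X = W' - Y * ρ / 2 := by rw [hXe, hWe]; ring
  have hY1 : |(Y : ℝ)| < 2 * D := by
    have e1 : (Y : ℝ) * (R + ρ / 2) = A - X := by rw [hAe', hXe']; ring
    have e2 : |(Y : ℝ)| * R ≤ |A| + |X| := by
      calc |(Y : ℝ)| * R ≤ |(Y : ℝ)| * |R + ρ / 2| := by
            rw [abs_of_pos (by positivity : 0 < R + ρ / 2)]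
            exact mul_le_mul_of_nonneg_left (by linarith) (abs_nonneg _)
        _ = |A - X| := by rw [← abs_mul, e1]
        _ ≤ _ := abs_sub _ _
    by_contra hcon
    push Not at hcon
    nlinarith
  by_contra hcon
  push Not at hcon
  obtain ⟨hW, hY0⟩ := hcon
  have hW1 := hone W' hW
  have hY2 := hone Y hY0
  have hs : |(Y : ℝ) * ρ / 2| ≤ 1 / 4 := by
    rw [abs_div, abs_mul, abs_of_pos hρ, abs_of_pos (by norm_num : (0:ℝ) < 2)]
    nlinarith [abs_nonneg (Y : ℝ)]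
  have hWX : |(W' : ℝ)| ≤ |X| + |(Y : ℝ) * ρ / 2| := by
    have e : (W' : ℝ) = X + Y * ρ / 2 := by rw [hXe']; ring
    calc |(W' : ℝ)| = |X + Y * ρ / 2| := by rw [← e]
      _ ≤ _ := abs_add_le _ _
  have hX2 : 1 / 2 ≤ |X| := by linarith
  have hX4 : 1 / 4 ≤ X ^ 2 := by rw [← sq_abs]; nlinarith
  have hAs : |A| < 4 * D ^ 3 := by nlinarith [sq_nonneg I]
  have e1 : (Y : ℝ) * R = A - W' := by rw [hAe']; ring
  have e2 : |(Y : ℝ)| * R ≤ |A| + |(W' : ℝ)| := by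
    calc |(Y : ℝ)| * R = |(Y : ℝ) * R| := by rw [abs_mul, abs_of_pos hR0]
      _ = |A - W'| := by rw [e1]
      _ ≤ _ := abs_sub _ _
  nlinarith

end Pool.Agent.H967R2.NRS
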