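import Pool.Agent.H967R2.NRSCases

set_option autoImplicit false

namespace Pool.Agent.H967R2.NRS

/-- iterating an operation and its inverse to normalise a positive quantity -/
theorem exists_normalised {S : Type*} (P : S → Prop) (A N : S → ℝ) (c : ℝ) (hc : 1 < c)
    (hf : ∀ w, P w → ∃ w', P w' ∧ A w' = c * A w ∧ A w' * N w' = A w * N w)
    (hg : ∀ w, P w → ∃ w', P w' ∧ A w' = c⁻¹ * A w ∧ A w' * N w' = A w * N w)
    (D : ℝ) (hD : 0 < D) (w0 : S) (h0 : P w0) (hA0 : 0 < A w0) :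
    ∃ w, P w ∧ D ≤ A w ∧ A w < D * c ∧ A w * N w = A w0 * N w0 := by
  have key : ∀ n : ℤ, ∃ w, P w ∧ A w = c ^ n * A w0 ∧ A w * N w = A w0 * N w0 := by
    intro n
    induction n with
    | zero => exact ⟨w0, h0, by simp, rfl⟩
    | succ i ih =>
      obtain ⟨w, hw, h1, h2⟩ := ih
      obtain ⟨w', hw', h3, h4⟩ := hf w hw
      refine ⟨w', hw', ?_, by rw [h4, h2]⟩
      rw [h3, h1, zpow_add_one₀ (by linarith)]
      ring
    | pred i ih =>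
      obtain ⟨w, hw, h1, h2⟩ := ih
      obtain ⟨w', hw', h3, h4⟩ := hg w hw
      refine ⟨w', hw', ?_, by rw [h4, h2]⟩
      rw [h3, h1, zpow_sub_one₀ (by linarith)]
      ring
  obtain ⟨n, hn1, hn2⟩ := exists_mem_Ico_zpow (x := A w0 / D) (y := c) (by positivity) hc
  obtain ⟨w, hw, h1, h2⟩ := key (-n)
  have hcn : (0 : ℝ) < c ^ n := zpow_pos (by linarith) n
  refine ⟨w, hw, ?_, ?_, h2⟩
  · rw [h1, zpow_neg, inv_mul_eq_div, le_div_iff₀ hcn]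
    rw [le_div_iff₀ hD] at hn1
    linarith
  · rw [h1, zpow_neg, inv_mul_eq_div, div_lt_iff₀ hcn]
    rw [zpow_add_one₀ (by linarith), div_lt_iff₀ hD] at hn2
    linarith

/-- value at the real place of the element `W + Y λ + Z λ⁻¹`  -/
noncomputable def Ar (ρ : ℝ) (w : ℤ × ℤ × ℤ) : ℝ := w.1 + w.2.1 * ρ + w.2.2 * ρ⁻¹

/-- real part of the value at the complex place of `W + Y λ + Z λ⁻¹` -/
noncomputable def Re' (ρ u : ℝ) (w : ℤ × ℤ × ℤ) : ℝ := w.1 + (w.2.1 + ρ * w.2.2) * u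

/-- imaginary part of the value at the complex place of `W + Y λ + Z λ⁻¹` -/
noncomputable def Im' (ρ v : ℝ) (w : ℤ × ℤ × ℤ) : ℝ := (w.2.1 - ρ * w.2.2) * v

/-- squared absolute value at the complex place of `W + Y λ + Z λ⁻¹` -/
noncomputable def N2 (ρ u v : ℝ) (w : ℤ × ℤ × ℤ) : ℝ := Re' ρ u w ^ 2 + Im' ρ v w ^ 2

/-- multiplication by `λ` -/
def mulL (a b : ℤ) (w : ℤ × ℤ × ℤ) : ℤ × ℤ × ℤ := (w.2.2 - b * w.2.1, w.1 + a * w.2.1, w.2.1)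

/-- multiplication by `λ⁻¹` -/
def mulLi (a b : ℤ) (w : ℤ × ℤ × ℤ) : ℤ × ℤ × ℤ := (w.2.1 - a * w.2.2, w.2.2, w.1 + b * w.2.2)

section
variable {ρ u v : ℝ} {a b : ℤ}

theorem Ar_mulL (h1 : ρ * (u ^ 2 + v ^ 2) = 1) (ha : (a : ℝ) = ρ + 2 * u)
    (hb : (b : ℝ) = u ^ 2 + v ^ 2 + 2 * u * ρ) (w : ℤ × ℤ × ℤ) :
    Ar ρ (mulL a b w) = ρ * Ar ρ w := by
  have hρ : ρ ≠ 0 := by rintro rfl; simp at h1
  have hi : ρ⁻¹ = u ^ 2 + v ^ 2 := by field_simp; linarith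
  unfold Ar mulL
  simp only [hi]
  push_cast
  rw [ha, hb]
  linear_combination (-(w.2.2 : ℝ)) * h1

theorem mulL_mulLi (w : ℤ × ℤ × ℤ) : mulL a b (mulLi a b w) = w := by
  unfold mulL mulLi
  ext <;> simp

theorem Ar_mulLi (h1 : ρ * (u ^ 2 + v ^ 2) = 1) (ha : (a : ℝ) = ρ + 2 * u)
    (hb : (b : ℝ) = u ^ 2 + v ^ 2 + 2 * u * ρ) (w : ℤ × ℤ × ℤ) :
    Ar ρ (mulLi a b w) = ρ⁻¹ * Ar ρ w := by
  have hρ : ρ ≠ 0 := by rintro rfl; simp at h1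
  have := Ar_mulL h1 ha hb (mulLi a b w)
  rw [mulL_mulLi] at this
  rw [this]
  field_simp

theorem Re_mulL (h1 : ρ * (u ^ 2 + v ^ 2) = 1) (ha : (a : ℝ) = ρ + 2 * u)
    (hb : (b : ℝ) = u ^ 2 + v ^ 2 + 2 * u * ρ) (w : ℤ × ℤ × ℤ) :
    Re' ρ u (mulL a b w) = u * Re' ρ u w - v * Im' ρ v w := by
  unfold Re' Im' mulL
  push_cast
  rw [ha, hb]
  linear_combination (-(w.2.2 : ℝ)) * h1

theorem Im_mulL (ha : (a : ℝ) = ρ + 2 * u) (w : ℤ × ℤ × ℤ) :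
    Im' ρ v (mulL a b w) = u * Im' ρ v w + v * Re' ρ u w := by
  unfold Re' Im' mulL
  push_cast
  rw [ha]
  ring

theorem N2_mulL (h1 : ρ * (u ^ 2 + v ^ 2) = 1) (ha : (a : ℝ) = ρ + 2 * u)
    (hb : (b : ℝ) = u ^ 2 + v ^ 2 + 2 * u * ρ) (w : ℤ × ℤ × ℤ) :
    ρ * N2 ρ u v (mulL a b w) = N2 ρ u v w := by
  unfold N2
  rw [Re_mulL h1 ha hb, Im_mulL ha]
  linear_combination (Re' ρ u w ^ 2 + Im' ρ v w ^ 2) * h1

theorem N2_mulLi (h1 : ρ * (u ^ 2 + v ^ 2) = 1) (ha : (a : ℝ) = ρ + 2 * u)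
    (hb : (b : ℝ) = u ^ 2 + v ^ 2 + 2 * u * ρ) (w : ℤ × ℤ × ℤ) :
    N2 ρ u v (mulLi a b w) = ρ * N2 ρ u v w := by
  have := N2_mulL h1 ha hb (mulLi a b w)
  rw [mulL_mulLi] at this
  exact this.symm

/-- multiplication by `μ = λ - t` -/
def mulM (t : ℤ) (w : ℤ × ℤ × ℤ) : ℤ × ℤ × ℤ := mulL (2 * t) (t ^ 2) w - t • w

theorem Ar_mulM {t : ℤ} (h1 : ρ * (u ^ 2 + v ^ 2) = 1) (ha : ((2 * t : ℤ) : ℝ) = ρ + 2 * u)
    (hb : ((t ^ 2 : ℤ) : ℝ) = u ^ 2 + v ^ 2 + 2 * u * ρ) (w : ℤ × ℤ × ℤ) :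
    Ar ρ (mulM t w) = (ρ - t) * Ar ρ w := by
  have : Ar ρ (mulM t w) = Ar ρ (mulL (2 * t) (t ^ 2) w) - t * Ar ρ w := by
    unfold mulM Ar
    simp only [Prod.fst_sub, Prod.snd_sub, Prod.smul_fst, Prod.smul_snd, smul_eq_mul]
    push_cast
    ring
  rw [this, Ar_mulL h1 ha hb]; ring

theorem N2_mulM {t : ℤ} (h1 : ρ * (u ^ 2 + v ^ 2) = 1) (ha : ((2 * t : ℤ) : ℝ) = ρ + 2 * u)
    (hb : ((t ^ 2 : ℤ) : ℝ) = u ^ 2 + v ^ 2 + 2 * u * ρ) (w : ℤ × ℤ × ℤ) :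
    N2 ρ u v (mulM t w) = ((u - t) ^ 2 + v ^ 2) * N2 ρ u v w := by
  have e1 : Re' ρ u (mulM t w) = Re' ρ u (mulL (2 * t) (t ^ 2) w) - t * Re' ρ u w := by
    unfold mulM Re'
    simp only [Prod.fst_sub, Prod.snd_sub, Prod.smul_fst, Prod.smul_snd, smul_eq_mul]
    push_cast
    ring
  have e2 : Im' ρ v (mulM t w) = Im' ρ v (mulL (2 * t) (t ^ 2) w) - t * Im' ρ v w := by
    unfold mulM Im'
    simp only [Prod.fst_sub, Prod.snd_sub, Prod.smul_fst, Prod.smul_snd, smul_eq_mul]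
    push_cast
    ring
  unfold N2
  rw [e1, e2, Re_mulL h1 ha hb, Im_mulL ha]
  ring

/-- `λ · μ` is the inverse of `μ` -/
theorem mulM_inv (t : ℤ) (w : ℤ × ℤ × ℤ) :
    mulL (2 * t) (t ^ 2) (mulM t (mulM t w)) = w := by
  unfold mulM mulL
  ext <;> simp <;> ring

theorem mulM_inv' (t : ℤ) (w : ℤ × ℤ × ℤ) :
    mulM t (mulL (2 * t) (t ^ 2) (mulM t w)) = w := by
  unfold mulM mulL
  ext <;> simp <;> ring

end

/-- a cube comparison: if `D ∣ x` and `x ≠ 0` then `D ^ 3 ≤ |x| ^ 3` -/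
theorem cube_le {D x : ℤ} (hD : 1 ≤ D) (hx : x ≠ 0) (h : D ∣ x) : (D : ℝ) ^ 3 ≤ |(x : ℝ)| ^ 3 := by
  have h1 : D ≤ |x| := Int.le_of_dvd (abs_pos.mpr hx) ((dvd_abs _ _).mpr h)
  have h2 : (D : ℝ) ≤ |(x : ℝ)| := by exact_mod_cast h1
  have h3 : (1 : ℝ) ≤ D := by exact_mod_cast hD
  gcongr

/-- the main estimate, when the real root is small -/
theorem main_small (D : ℤ) (hD : 1 ≤ D) (a b : ℤ) (ρ u v : ℝ) (hρ : 0 < ρ)
    (h1 : ρ * (u ^ 2 + v ^ 2) = 1) (ha : (a : ℝ) = ρ + 2 * u)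
    (hb : (b : ℝ) = u ^ 2 + v ^ 2 + 2 * u * ρ) (hbig : (64 * (D : ℝ) ^ 3) ^ 2 ≤ u ^ 2 + v ^ 2)
    (J : AddSubgroup (ℤ × ℤ × ℤ)) (hJ1 : ∀ w ∈ J, mulL a b w ∈ J) (hJ2 : ∀ w ∈ J, mulLi a b w ∈ J)
    (hJ3 : ∀ x : ℤ, ((x, 0, 0) : ℤ × ℤ × ℤ) ∈ J → D ∣ x)
    (w : ℤ × ℤ × ℤ) (hw : w ∈ J) (hA : Ar ρ w ≠ 0) :
    (D : ℝ) ^ 3 ≤ |Ar ρ w| * N2 ρ u v w := by
  have hD1 : (1 : ℝ) ≤ D := by exact_mod_cast hD
  set R := Real.sqrt (u ^ 2 + v ^ 2) with hRdef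
  have hR2 : R ^ 2 = u ^ 2 + v ^ 2 := Real.sq_sqrt (by positivity)
  have hR : 64 * (D : ℝ) ^ 3 ≤ R := by
    apply Real.le_sqrt_of_sq_le hbig
  have hDp : (1 : ℝ) ≤ (D : ℝ) ^ 3 := one_le_pow₀ hD1
  have hR64 : 64 ≤ R := by linarith
  have hR0 : 0 < R := by linarith
  have h1R : ρ * R ^ 2 = 1 := by rw [hR2]; exact h1
  have hρR : ρ * R * R = 1 := by linarith
  have hinv : ρ⁻¹ = R ^ 2 := by field_simp; linarith
  have hρ1 : ρ < 1 := by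
    by_contra hcon
    push Not at hcon
    nlinarith
  by_contra hlt
  push Not at hlt
  by_cases hv : 1 / 4 ≤ v ^ 2
  · -- case 1
    obtain ⟨w', hw', hA1, hA2, hN'⟩ := exists_normalised (fun w => w ∈ J) (fun w => |Ar ρ w|) (fun w => N2 ρ u v w)
      ρ⁻¹ ((one_lt_inv₀ hρ).mpr hρ1)
      (fun w hw => ⟨mulLi a b w, hJ2 w hw, by
        show |Ar ρ (mulLi a b w)| = _
        rw [Ar_mulLi h1 ha hb, abs_mul, abs_of_pos (inv_pos.mpr hρ)], by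
        show |Ar ρ (mulLi a b w)| * N2 ρ u v (mulLi a b w) = _
        rw [Ar_mulLi h1 ha hb, abs_mul, abs_of_pos (inv_pos.mpr hρ), N2_mulLi h1 ha hb]
        field_simp⟩)
      (fun w hw => ⟨mulL a b w, hJ1 w hw, by
        show |Ar ρ (mulL a b w)| = _
        rw [Ar_mulL h1 ha hb, abs_mul, abs_of_pos hρ, inv_inv], by
        show |Ar ρ (mulL a b w)| * N2 ρ u v (mulL a b w) = _
        rw [Ar_mulL h1 ha hb, abs_mul, abs_of_pos hρ, ← N2_mulL h1 ha hb w]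
        ring⟩)
      D (by linarith) w hw (abs_pos.mpr hA)
    obtain ⟨W, Y, Z⟩ := w'
    change (W, Y, Z) ∈ J at hw'
    have hc := case1core D R ρ u v (Ar ρ (W, Y, Z)) (Re' ρ u (W, Y, Z)) (Im' ρ v (W, Y, Z)) W Y Z hD1 hR hρ h1R hR2 hv
      (by unfold Ar; simp only [hinv]) (by unfold Re'; rfl) (by unfold Im'; rfl) hA1 (by rw [← hinv]; exact hA2)
      (by rw [hN'.symm] at hlt; exact hlt)
    obtain ⟨rfl, h0⟩ := hc
    rw [← hN'] at hlt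
    rcases h0 with rfl | rfl
    · -- `w' = Z λ⁻¹`
      have hZ : D ∣ Z := hJ3 Z (by
        have := hJ1 _ hw'
        simpa [mulL] using this)
      have hZ0 : Z ≠ 0 := by
        rintro rfl
        simp [Ar] at hA1
        linarith
      have := cube_le hD hZ0 hZ
      have e : |Ar ρ (0, 0, Z)| * N2 ρ u v (0, 0, Z) = |(Z : ℝ)| ^ 3 := by
        have e1 : Ar ρ (0, 0, Z) = Z * ρ⁻¹ := by simp [Ar]
        have e2 : N2 ρ u v (0, 0, Z) = ρ * |(Z : ℝ)| ^ 2 := by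
          rw [sq_abs]
          have : N2 ρ u v (0, 0, Z) = ρ * (ρ * (u ^ 2 + v ^ 2)) * Z ^ 2 := by
            simp [N2, Re', Im']; ring
          rw [this, h1]; ring
        rw [e1, e2, abs_mul, abs_of_pos (inv_pos.mpr hρ)]
        field_simp
      linarith
    · have hW : D ∣ W := hJ3 W hw'
      have hW0 : W ≠ 0 := by
        rintro rfl
        simp [Ar] at hA1
        linarith
      have := cube_le hD hW0 hW
      have e : |Ar ρ (W, 0, 0)| * N2 ρ u v (W, 0, 0) = |(W : ℝ)| ^ 3 := by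
        have e1 : Ar ρ (W, 0, 0) = W := by simp [Ar]
        have e2 : N2 ρ u v (W, 0, 0) = |(W : ℝ)| ^ 2 := by
          rw [sq_abs]; simp [N2, Re', Im']
        rw [e1, e2]; ring
      linarith
  · -- case 2
    push Not at hv
    have hu : |u| ≤ R := by
      rw [← abs_of_pos hR0]
      apply sq_le_sq.mp; nlinarith [sq_nonneg v]
    have hu1 := abs_le.mp hu
    have hρR1 : ρ * R ≤ 1 / 64 := by
      by_contra hcon
      push Not at hcon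
      nlinarith
    have hρs : ρ ≤ 1 / 64 := by nlinarith
    have hkey : (4 * b - a ^ 2 : ℝ) = 4 * v ^ 2 + 4 * u * ρ - ρ ^ 2 := by
      rw [ha, hb]; ring
    have hlo : (-1 : ℝ) < 4 * b - a ^ 2 := by
      rw [hkey]
      nlinarith [mul_le_mul_of_nonneg_left hu1.1 hρ.le, sq_nonneg v]
    have hhi : (4 * b - a ^ 2 : ℝ) < 2 := by
      rw [hkey]
      nlinarith [mul_le_mul_of_nonneg_left hu1.2 hρ.le, sq_nonneg ρ]
    have hlo' : -1 < 4 * b - a ^ 2 := by exact_mod_cast hlo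
    have hhi' : 4 * b - a ^ 2 < 2 := by exact_mod_cast hhi
    obtain ⟨t, rfl | rfl⟩ := Int.even_or_odd' a
    · have hb' : b = t ^ 2 := by
        have : 4 * (b - t ^ 2) = 4 * b - (2 * t) ^ 2 := by ring
        omega
      subst hb'
      have ht : (t : ℝ) = u + ρ / 2 := by
        push_cast at ha
        linarith
      have hv' : v ^ 2 = ρ ^ 2 / 4 - u * ρ := by
        push_cast at hb
        rw [ht] at hb
        linarith
      have hu4 : u ≤ ρ / 4 := by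
        by_contra hcon
        push Not at hcon
        nlinarith [sq_nonneg v]
      have hRu : R = ρ / 2 - u := by
        have e1 : R ^ 2 = (ρ / 2 - u) ^ 2 := by rw [hR2, hv']; ring
        have e2 : 0 ≤ ρ / 2 - u := by linarith
        nlinarith [sq_nonneg (R - (ρ / 2 - u)), sq_nonneg (R + (ρ / 2 - u))]
      have huR : u = ρ / 2 - R := by linarith
      have hvR : v ^ 2 = ρ * R - ρ ^ 2 / 4 := by rw [hv', huR]; ring
      have hmr : ρ - t = R := by rw [ht, huR]; ring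
      have hmz : (u - t) ^ 2 + v ^ 2 = ρ * R := by rw [ht, hvR]; ring
      have hJM : ∀ w ∈ J, mulM t w ∈ J := fun w hw => J.sub_mem (hJ1 w hw) (J.zsmul_mem hw t)
      have hRne : R ≠ 0 := hR0.ne'
      obtain ⟨w', hw', hA1, hA2, hN'⟩ := exists_normalised (fun w => w ∈ J) (fun w => |Ar ρ w|) (fun w => N2 ρ u v w)
        R (by linarith)
        (fun w hw => ⟨mulM t w, hJM w hw, by
          show |Ar ρ (mulM t w)| = _
          rw [Ar_mulM h1 ha hb, abs_mul, hmr, abs_of_pos hR0], by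
          show |Ar ρ (mulM t w)| * N2 ρ u v (mulM t w) = _
          rw [Ar_mulM h1 ha hb, abs_mul, hmr, abs_of_pos hR0, N2_mulM h1 ha hb, hmz]
          linear_combination (|Ar ρ w| * N2 ρ u v w) * hρR⟩)
        (fun w hw => ⟨mulL (2 * t) (t ^ 2) (mulM t w), hJ1 _ (hJM w hw), by
          show |Ar ρ (mulL (2 * t) (t ^ 2) (mulM t w))| = _
          rw [Ar_mulL h1 ha hb, Ar_mulM h1 ha hb, abs_mul, abs_mul, hmr, abs_of_pos hR0, abs_of_pos hρ]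
          field_simp
          linear_combination (|Ar ρ w|) * hρR, by
          show |Ar ρ (mulL (2 * t) (t ^ 2) (mulM t w))| * N2 ρ u v (mulL (2 * t) (t ^ 2) (mulM t w)) = _
          have e1 := N2_mulL h1 ha hb (mulM t w)
          rw [N2_mulM h1 ha hb, hmz] at e1
          rw [Ar_mulL h1 ha hb, Ar_mulM h1 ha hb, abs_mul, abs_mul, hmr, abs_of_pos hR0, abs_of_pos hρ]
          linear_combination (R * |Ar ρ w|) * e1 + (|Ar ρ w| * N2 ρ u v w) * hρR⟩)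
        D (by linarith) w hw (abs_pos.mpr hA)
      obtain ⟨W, Y, Z⟩ := w'
      change (W, Y, Z) ∈ J at hw'
      have hc := case2core D R ρ u v (Ar ρ (W, Y, Z)) (Re' ρ u (W, Y, Z)) (Im' ρ v (W, Y, Z)) W Y Z t hD1 hR hρ h1R huR hvR ht
        (by unfold Ar; simp only [hinv]) (by unfold Re'; rfl) (by unfold Im'; rfl) hA1 hA2
        (by rw [hN'.symm] at hlt; exact hlt)
      obtain ⟨rfl, h0⟩ := hc
      rw [← hN'] at hlt
      rcases h0 with h0 | rfl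
      · have hWt : W = -(t * Y) := by linarith
        subst hWt
        have hYm : ((Y, 0, 0) : ℤ × ℤ × ℤ) ∈ J := by
          have := hJ1 _ (hJM _ hw')
          have e : mulL (2 * t) (t ^ 2) (mulM t (-(t * Y), Y, 0)) = (Y, 0, 0) := by
            unfold mulM mulL
            refine Prod.ext ?_ (Prod.ext ?_ ?_) <;>
            simp only [Prod.fst_sub, Prod.snd_sub, Prod.smul_fst, Prod.smul_snd, smul_eq_mul] <;> ring
          rwa [e] at this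
        have hY : D ∣ Y := hJ3 Y hYm
        have hY0 : Y ≠ 0 := by
          rintro rfl
          simp [Ar] at hA1
          linarith
        have := cube_le hD hY0 hY
        have e : |Ar ρ (-(t * Y), Y, 0)| * N2 ρ u v (-(t * Y), Y, 0) = |(Y : ℝ)| ^ 3 := by
          have e1 : Ar ρ (-(t * Y), Y, 0) = R * Y := by
            rw [← hmr]; simp [Ar]; ring
          have e2 : N2 ρ u v (-(t * Y), Y, 0) = (ρ * R) * |(Y : ℝ)| ^ 2 := by
            rw [sq_abs, ← hmz]; simp [N2, Re', Im']; ring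
          rw [e1, e2, abs_mul, abs_of_pos hR0]
          linear_combination (|(Y : ℝ)| ^ 3) * hρR
        linarith
      · have hW : D ∣ W := hJ3 W hw'
        have hW0 : W ≠ 0 := by
          rintro rfl
          simp [Ar] at hA1
          linarith
        have := cube_le hD hW0 hW
        have e : |Ar ρ (W, 0, 0)| * N2 ρ u v (W, 0, 0) = |(W : ℝ)| ^ 3 := by
          have e1 : Ar ρ (W, 0, 0) = W := by simp [Ar]
          have e2 : N2 ρ u v (W, 0, 0) = |(W : ℝ)| ^ 2 := by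
            rw [sq_abs]; simp [N2, Re', Im']
          rw [e1, e2]; ring
        linarith
    · exfalso
      have : 4 * b - (2 * t + 1) ^ 2 = 4 * (b - t ^ 2 - t) - 1 := by ring
      omega


/-- the main estimate, when the real root is large -/
theorem main_large (D : ℤ) (hD : 1 ≤ D) (a b : ℤ) (ρ u v : ℝ) (hρ : 0 < ρ)
    (h1 : ρ * (u ^ 2 + v ^ 2) = 1) (ha : (a : ℝ) = ρ + 2 * u)
    (hb : (b : ℝ) = u ^ 2 + v ^ 2 + 2 * u * ρ) (hbig : (64 * (D : ℝ) ^ 3) ^ 2 ≤ ρ)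
    (J : AddSubgroup (ℤ × ℤ × ℤ)) (hJ1 : ∀ w ∈ J, mulL a b w ∈ J) (hJ2 : ∀ w ∈ J, mulLi a b w ∈ J)
    (hJ3 : ∀ x : ℤ, ((x, 0, 0) : ℤ × ℤ × ℤ) ∈ J → D ∣ x)
    (w : ℤ × ℤ × ℤ) (hw : w ∈ J) (hA : Ar ρ w ≠ 0) :
    (D : ℝ) ^ 3 ≤ |Ar ρ w| * N2 ρ u v w := by
  have hinv : ρ⁻¹ = u ^ 2 + v ^ 2 := by field_simp; linarith
  let sw : (ℤ × ℤ × ℤ) →+ (ℤ × ℤ × ℤ) :=
    { toFun := fun w => (w.1, w.2.2, w.2.1)
      map_zero' := rfl
      map_add' := fun x y => rfl }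
  have hsw : ∀ w, sw (sw w) = w := fun w => rfl
  have hAr : ∀ w, Ar ρ⁻¹ (sw w) = Ar ρ w := by
    intro w
    show (w.1 : ℝ) + w.2.2 * ρ⁻¹ + w.2.1 * ρ⁻¹⁻¹ = w.1 + w.2.1 * ρ + w.2.2 * ρ⁻¹
    rw [inv_inv]; ring
  have hN : ∀ w, N2 ρ⁻¹ (ρ * u) (ρ * v) (sw w) = N2 ρ u v w := by
    intro w
    show ((w.1 : ℝ) + (w.2.2 + ρ⁻¹ * w.2.1) * (ρ * u)) ^ 2 + ((w.2.2 - ρ⁻¹ * w.2.1) * (ρ * v)) ^ 2
      = (w.1 + (w.2.1 + ρ * w.2.2) * u) ^ 2 + ((w.2.1 - ρ * w.2.2) * v) ^ 2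
    have hρ' : ρ⁻¹ * ρ = 1 := inv_mul_cancel₀ hρ.ne'
    have e1 : ((w.2.2 : ℝ) + ρ⁻¹ * w.2.1) * (ρ * u) = (w.2.1 + ρ * w.2.2) * u := by
      linear_combination (w.2.1 * u) * hρ'
    have e2 : ((w.2.2 : ℝ) - ρ⁻¹ * w.2.1) * (ρ * v) = -((w.2.1 - ρ * w.2.2) * v) := by
      linear_combination (-w.2.1 * v) * hρ'
    rw [e1, e2]; ring
  have := main_small D hD b a ρ⁻¹ (ρ * u) (ρ * v) (inv_pos.mpr hρ)
    (by
      have : ρ⁻¹ * ((ρ * u) ^ 2 + (ρ * v) ^ 2) = ρ⁻¹ * ρ * (ρ * (u ^ 2 + v ^ 2)) := by ring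
      rw [this, h1, inv_mul_cancel₀ hρ.ne', one_mul])
    (by rw [hb, hinv]; ring)
    (by
      have e : (ρ * u) ^ 2 + (ρ * v) ^ 2 = ρ * (ρ * (u ^ 2 + v ^ 2)) := by ring
      rw [e, h1, ha]
      have : ρ * u * ρ⁻¹ = u := by field_simp
      linear_combination (-2) * this)
    (by
      have e : (ρ * u) ^ 2 + (ρ * v) ^ 2 = ρ * (ρ * (u ^ 2 + v ^ 2)) := by ring
      rw [e, h1, mul_one]; exact hbig)
    (J.map sw)
    (by
      rintro _ ⟨y, hy, rfl⟩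
      exact ⟨mulLi a b y, hJ2 y hy, rfl⟩)
    (by
      rintro _ ⟨y, hy, rfl⟩
      exact ⟨mulL a b y, hJ1 y hy, rfl⟩)
    (by
      rintro x ⟨y, hy, hxy⟩
      apply hJ3 x
      have : y = sw (x, 0, 0) := by rw [← hxy, hsw]
      rw [this] at hy
      exact hy)
    (sw w) ⟨w, hw, rfl⟩ (by rw [hAr]; exact hA)
  rwa [hAr, hN] at this

end Pool.Agent.H967R2.NRS
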