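import Pool.Agent.H967R2.NRSMain

set_option autoImplicit false

namespace Pool.Agent.H967R2.NRS

open Matrix

theorem mulLi_mulL {a b : ℤ} (w : ℤ × ℤ × ℤ) : mulLi a b (mulL a b w) = w := by
  unfold mulL mulLi
  ext <;> simp

/-- the Krylov matrix `[x, M x, M² x]` -/
def K (M : Matrix (Fin 3) (Fin 3) ℤ) (x : Fin 3 → ℤ) : Matrix (Fin 3) (Fin 3) ℤ :=
  Matrix.of fun i j => ((M ^ (j : ℕ)) *ᵥ x) i

theorem mul_K (C M L : Matrix (Fin 3) (Fin 3) ℤ) (h : C * M = L * C) (x : Fin 3 → ℤ) :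
    C * K M x = K L (C *ᵥ x) := by
  have hp : ∀ n : ℕ, C * M ^ n = L ^ n * C := by
    intro n
    induction n with
    | zero => simp
    | succ n ih => rw [pow_succ, ← mul_assoc, ih, mul_assoc, h, ← mul_assoc, ← pow_succ]
  ext i j
  have e : (C * K M x) i j = (C *ᵥ ((M ^ (j : ℕ)) *ᵥ x)) i := by
    simp [Matrix.mul_apply, K, Matrix.mulVec, dotProduct]
  rw [e, Matrix.mulVec_mulVec, hp, ← Matrix.mulVec_mulVec]
  rfl

/-- matrix of multiplication by `λ` in the basis `1, λ, λ⁻¹` -/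
def Lam (a b : ℤ) : Matrix (Fin 3) (Fin 3) ℤ := !![0, -b, 1; 1, a, 0; 0, 1, 0]

/-- coordinates of `D` times the linear form -/
def Cmat (p q r s k a b : ℤ) : Matrix (Fin 3) (Fin 3) ℤ :=
  !![q * k, -(k * p), p * s - r * q - b; 0, k, a - s - p; 0, 0, 1]

theorem Cmat_mul (p q r s k c1 c2 c3 a b : ℤ) (ha : a = p + s + c3)
    (hb : b = p * s - q * r + p * c3 + s * c3 - k * c2)
    (hdet : p * (s * c3 - c2 * k) - r * (q * c3) + c1 * (q * k) = 1) :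
    Cmat p q r s k a b * !![p, r, c1; q, s, c2; 0, k, c3] = Lam a b * Cmat p q r s k a b := by
  subst ha hb
  ext i j
  fin_cases i <;> fin_cases j <;>
  simp [Cmat, Lam, Matrix.mul_apply, Fin.sum_univ_three]
  all_goals first | ring1 | linear_combination hdet

theorem Cmat_det (p q r s k a b : ℤ) : (Cmat p q r s k a b).det = q * k * k := by
  rw [Matrix.det_fin_three]; simp [Cmat]

/-- a vector as a triple -/
def toT (y : Fin 3 → ℤ) : ℤ × ℤ × ℤ := (y 0, y 1, y 2)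

theorem nm_eq {ρ u v : ℝ} {a b : ℤ} (h1 : ρ * (u ^ 2 + v ^ 2) = 1) (ha : (a : ℝ) = ρ + 2 * u)
    (hb : (b : ℝ) = u ^ 2 + v ^ 2 + 2 * u * ρ) (y : Fin 3 → ℤ) :
    Ar ρ (toT y) * N2 ρ u v (toT y) = ((K (Lam a b) y).det : ℝ) := by
  have hρ : ρ ≠ 0 := by rintro rfl; simp at h1
  have hi : ρ⁻¹ = u ^ 2 + v ^ 2 := by field_simp; linarith
  have c0 : (Lam a b ^ ((0 : Fin 3) : ℕ)) *ᵥ y = y := by simp
  have c1 : (Lam a b ^ ((1 : Fin 3) : ℕ)) *ᵥ y = ![y 2 - b * y 1, y 0 + a * y 1, y 1] := by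
    ext i; fin_cases i <;> simp [Lam, Matrix.mulVec, dotProduct, Fin.sum_univ_three] <;> ring
  have c2 : (Lam a b ^ ((2 : Fin 3) : ℕ)) *ᵥ y =
      ![y 1 - b * (y 0 + a * y 1), y 2 - b * y 1 + a * (y 0 + a * y 1), y 0 + a * y 1] := by
    have : (Lam a b ^ ((2 : Fin 3) : ℕ)) *ᵥ y = Lam a b *ᵥ ((Lam a b ^ ((1 : Fin 3) : ℕ)) *ᵥ y) := by
      rw [Matrix.mulVec_mulVec]; congr 1
      show Lam a b ^ 2 = Lam a b * Lam a b ^ 1
      rw [pow_one, sq]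
    rw [this, c1]
    ext i; fin_cases i <;> simp [Lam, Matrix.mulVec, dotProduct, Fin.sum_univ_three] <;> ring
  have e : (K (Lam a b) y).det =
      y 0 * ((y 0 + a * y 1) * (y 0 + a * y 1) - (y 2 - b * y 1 + a * (y 0 + a * y 1)) * y 1)
      - (y 2 - b * y 1) * (y 1 * (y 0 + a * y 1) - (y 2 - b * y 1 + a * (y 0 + a * y 1)) * y 2)
      + (y 1 - b * (y 0 + a * y 1)) * (y 1 * y 1 - (y 0 + a * y 1) * y 2) := by
    rw [Matrix.det_fin_three]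
    simp only [K, Matrix.of_apply, c0, c1, c2]
    simp
    ring
  rw [e]
  unfold Ar N2 Re' Im' toT
  simp only [hi]
  generalize y 0 = W
  generalize y 1 = Y
  generalize y 2 = Z
  push_cast
  rw [ha, hb]
  linear_combination (ρ ^ 2 * Y * Z ^ 2 + ρ * u ^ 2 * Z ^ 3 + ρ * v ^ 2 * Z ^ 3 + ρ * W * Z ^ 2
    - 2 * ρ * Y ^ 2 * Z + 2 * u ^ 2 * Y * Z ^ 2 + 2 * u * W * Z ^ 2 - 4 * u * Y ^ 2 * Z
    - 2 * v ^ 2 * Y * Z ^ 2 - 3 * W * Y * Z + (Y : ℝ) ^ 3 + (Z : ℝ) ^ 3) * h1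

end Pool.Agent.H967R2.NRS
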