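import Mathlib

set_option autoImplicit false

namespace Pool.Agent.H967R2.PosForm

open Finset

/-! ### Golden ratio is badly approximable -/

/-- the fractional part of the golden ratio -/
noncomputable def gp : ℝ := (√5 - 1) / 2

lemma sqrt5_sq : √5 * √5 = 5 := Real.mul_self_sqrt (by norm_num)

lemma sqrt5_lt : √5 < 2.24 := by
  rw [show (2.24 : ℝ) = √(2.24 ^ 2) by rw [Real.sqrt_sq (by norm_num)]]
  exact Real.sqrt_lt_sqrt (by norm_num) (by norm_num)

lemma sqrt5_gt : 2.23 < √5 := by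
  rw [show (2.23 : ℝ) = √(2.23 ^ 2) by rw [Real.sqrt_sq (by norm_num)]]
  exact Real.sqrt_lt_sqrt (by norm_num) (by norm_num)

lemma form_ne_zero (U V : ℤ) (hU : U ≠ 0) : V ^ 2 - U * V - U ^ 2 ≠ 0 := by
  intro h
  have h5 : Irrational (√5) := by
    have := Nat.Prime.irrational_sqrt (show Nat.Prime 5 by norm_num)
    simpa using this
  have hUr : (U : ℝ) ≠ 0 := by exact_mod_cast hU
  have h2 : ((2 * V - U : ℤ) : ℝ) ^ 2 = 5 * (U : ℝ) ^ 2 := by
    have : (2 * V - U) ^ 2 = 5 * U ^ 2 := by linear_combination 4 * h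
    exact_mod_cast this
  have h3 : (((2 * V - U : ℤ) : ℝ) / U) ^ 2 = 5 := by
    rw [div_pow, h2]
    field_simp
  have h4 : √5 = |((2 * V - U : ℤ) : ℝ) / U| := by
    rw [← Real.sqrt_sq_eq_abs, h3]
  apply h5
  rw [h4]
  refine ⟨|((2 * V - U : ℤ) : ℚ) / U|, ?_⟩
  push_cast
  rfl

lemma golden_bad (U V : ℤ) (hU : U ≠ 0) : 1 / (4 * |(U : ℝ)|) ≤ |(U : ℝ) * gp + V| := by
  have hUr : (1 : ℝ) ≤ |(U : ℝ)| := by
    have := Int.one_le_abs hU
    exact_mod_cast this
  by_contra hcon
  push Not at hcon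
  set y : ℝ := (U : ℝ) * gp + V with hy
  have hprod : y * (y - U * √5) = ((V ^ 2 - U * V - U ^ 2 : ℤ) : ℝ) := by
    rw [hy]
    push_cast
    unfold gp
    linear_combination (-(U : ℝ) ^ 2 / 4) * sqrt5_sq
  have h1 : (1 : ℝ) ≤ |y * (y - U * √5)| := by
    rw [hprod]
    have := Int.one_le_abs (form_ne_zero U V hU)
    exact_mod_cast this
  rw [abs_mul] at h1
  have h2 : |y - U * √5| ≤ |y| + |(U : ℝ)| * √5 := by
    calc |y - U * √5| ≤ |y| + |(U : ℝ) * √5| := abs_sub _ _
      _ = _ := by rw [abs_mul, abs_of_nonneg (Real.sqrt_nonneg 5)]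
  have h3 : 1 / (4 * |(U : ℝ)|) ≤ 1 / 4 := by
    apply one_div_le_one_div_of_le (by norm_num)
    linarith
  have h5 := sqrt5_lt
  have h4 : |y - U * √5| ≤ 2.49 * |(U : ℝ)| := by nlinarith
  have hy0 : 0 ≤ |y| := abs_nonneg y
  have h6 : |y| * |y - U * √5| ≤ 1 / (4 * |(U : ℝ)|) * (2.49 * |(U : ℝ)|) :=
    mul_le_mul hcon.le h4 (abs_nonneg _) (by positivity)
  have h7 : 1 / (4 * |(U : ℝ)|) * (2.49 * |(U : ℝ)|) = 2.49 / 4 := by
    field_simp
  rw [h7] at h6
  norm_num at h6
  linarith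

lemma gp_pos : 0 < gp := by unfold gp; have := sqrt5_gt; linarith
lemma gp_lt : gp < 1 := by unfold gp; have := sqrt5_lt; linarith

/-! ### The real number of one stage -/

lemma exists_alpha (D : ℕ) (hD : 1 ≤ D) (p : ℤ) (hp : IsCoprime p (D : ℤ)) (X : ℝ) (hX : 1 ≤ X) :
    ∃ α ζ : ℝ, 0 < ζ ∧ α = p / D + ζ / D ∧ 1 / (D * (X + 3)) ≤ ζ ∧ ζ ≤ 1 / (D * X) ∧
      ∀ (n : ℕ) (l : ℤ), 1 / 8 ≤ n * ζ → 1 / (64 * n) ≤ |(n : ℝ) * α - l| := by
  have hD0 : (0 : ℝ) < D := by exact_mod_cast hD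
  have hDz : (0 : ℤ) < D := by exact_mod_cast hD
  obtain ⟨u, v, huv⟩ := hp
  -- s = (-u) mod D
  obtain ⟨s, r, hrs, hs0, hsD⟩ : ∃ s r : ℤ, (D : ℤ) * r - p * s = 1 ∧ 0 ≤ s ∧ s < D := by
    refine ⟨(-u) % D, v - p * ((-u) / D), ?_, Int.emod_nonneg _ hDz.ne', Int.emod_lt_of_pos _ hDz⟩
    have := Int.emod_add_mul_ediv (-u) D
    linear_combination huv - p * this
  set x : ℝ := ⌈X⌉ + gp with hx
  have hxX : X ≤ x := by
    have := Int.le_ceil X
    have := gp_pos
    linarith
  have hxX2 : x ≤ X + 2 := by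
    have := Int.ceil_lt_add_one X
    have := gp_lt
    linarith
  have hs0' : (0 : ℝ) ≤ s := by exact_mod_cast hs0
  have hsD' : (s : ℝ) ≤ D := by exact_mod_cast hsD.le
  have hden : 0 < (D : ℝ) * x + s := by
    have : 0 < (D : ℝ) * x := by
      apply mul_pos hD0
      linarith
    linarith
  have hrs' : (D : ℝ) * r - p * s = 1 := by exact_mod_cast hrs
  set ζ : ℝ := 1 / (D * x + s) with hζ
  have hζ0 : 0 < ζ := by positivity
  have hζd : ζ * (D * x + s) = 1 := by rw [hζ]; field_simp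
  refine ⟨p / D + ζ / D, ζ, hζ0, rfl, ?_, ?_, ?_⟩
  · apply one_div_le_one_div_of_le hden
    nlinarith
  · apply one_div_le_one_div_of_le (by positivity)
    nlinarith
  · intro n l hn
    set α : ℝ := p / D + ζ / D with hα
    have hn1 : 1 ≤ n := by
      rcases Nat.eq_zero_or_pos n with h | h
      · subst h; norm_num at hn
      · exact h
    have hn0 : (0 : ℝ) < n := by exact_mod_cast hn1
    have hDα : (D : ℝ) * α = p + ζ := by rw [hα]; field_simp
    set U : ℤ := n * p - l * D with hU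
    set V : ℤ := n * r - l * s with hV
    have hUr : (U : ℝ) = n * p - l * D := by rw [hU]; push_cast; ring
    have hVr : (V : ℝ) = n * r - l * s := by rw [hV]; push_cast; ring
    have key : (n : ℝ) * α - l = (U * x + V) * ζ := by
      have h1 : (D : ℝ) * ((n : ℝ) * α - l) = D * ((U * x + V) * ζ) := by
        rw [hUr, hVr]
        have e1 : (D : ℝ) * ((n : ℝ) * α - l) = n * (p + ζ) - l * D := by rw [← hDα]; ring
        rw [e1]
        have e2 : (D : ℝ) * x * ζ = 1 - s * ζ := by linarith [hζd]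
        -- D*((np - lD)x + (nr - ls))ζ
        have e3 : (D : ℝ) * (((n * p - l * D) * x + (n * r - l * s)) * ζ)
            = (n * p - l * D) * (D * x * ζ) + D * (n * r - l * s) * ζ := by ring
        rw [e3, e2]
        linear_combination (-(n : ℝ) * ζ) * hrs'
      exact mul_left_cancel₀ hD0.ne' h1
    have hUα : (U : ℝ) = D * (n * α - l) - n * ζ := by
      rw [hUr]
      linear_combination (-(n : ℝ)) * hDα
    by_cases hU0 : U = 0
    · -- n = j D
      have h1 : (n : ℤ) * p = l * D := by rw [hU] at hU0; linarith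
      have hdvd : (D : ℤ) ∣ n := by
        have h2 : (D : ℤ) ∣ n * p := ⟨l, by rw [h1]; ring⟩
        have h3 : IsCoprime (D : ℤ) p := ⟨v, u, by linarith⟩
        exact h3.dvd_of_dvd_mul_right h2
      have hDn : D ∣ n := by exact_mod_cast hdvd
      have hDn' : (D : ℝ) ≤ n := by exact_mod_cast Nat.le_of_dvd hn1 hDn
      have h4 : (D : ℝ) * (n * α - l) = n * ζ := by
        have := hUα
        rw [hU0] at this
        push_cast at this
        linarith
      have h5 : (n : ℝ) * α - l = n * ζ / D := by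
        rw [eq_div_iff hD0.ne', ← h4]; ring
      rw [h5, abs_of_pos (by positivity)]
      calc 1 / (64 * (n : ℝ)) ≤ (1 / 8) / n := by
            rw [div_div]
            apply one_div_le_one_div_of_le (by positivity)
            linarith
        _ ≤ (n * ζ) / n := by gcongr
        _ ≤ n * ζ / D := by gcongr
    · by_contra hcon
      push Not at hcon
      have hUabs : |(U : ℝ)| ≤ D * |n * α - l| + n * ζ := by
        rw [hUα]
        calc |(D : ℝ) * (n * α - l) - n * ζ| ≤ |(D : ℝ) * (n * α - l)| + |n * ζ| := abs_sub _ _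
          _ = _ := by rw [abs_mul, abs_of_pos hD0, abs_of_pos (by positivity : 0 < (n : ℝ) * ζ)]
      have hDζ : (D : ℝ) * ζ ≤ 1 := by
        have : (D : ℝ) * 1 ≤ D * x + s := by nlinarith
        rw [hζ, mul_one_div, div_le_one hden]
        linarith
      -- D/n ≤ 8 D ζ ≤ 8
      have hDn : (D : ℝ) ≤ 8 * n := by
        have h1 : (D : ℝ) * (1 / 8) ≤ D * (n * ζ) := by gcongr
        have h2 : (D : ℝ) * (n * ζ) = n * (D * ζ) := by ring
        have h3 : (n : ℝ) * (D * ζ) ≤ n * 1 := by gcongr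
        linarith
      have h1 : (D : ℝ) * |n * α - l| ≤ 1 / 8 := by
        calc (D : ℝ) * |n * α - l| ≤ D * (1 / (64 * n)) := by gcongr
          _ ≤ 8 * n * (1 / (64 * n)) := by gcongr
          _ = 1 / 8 := by field_simp; norm_num
      have h2 : |(U : ℝ)| ≤ 2 * (n * ζ) := by linarith
      have h3 : 1 / (4 * |(U : ℝ)|) ≤ |(U : ℝ) * x + V| := by
        have := golden_bad U (U * ⌈X⌉ + V) hU0
        rw [hx]
        push_cast at this
        convert this using 2
        ring
      have hUpos : 0 < |(U : ℝ)| := by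
        rw [abs_pos]; exact_mod_cast hU0
      have h4 : 1 / (8 * n) ≤ |(n : ℝ) * α - l| := by
        rw [key, abs_mul, abs_of_pos hζ0]
        calc 1 / (8 * (n : ℝ)) = 1 / (4 * (2 * (n * ζ))) * ζ := by field_simp; norm_num
          _ ≤ 1 / (4 * |(U : ℝ)|) * ζ := by gcongr
          _ ≤ _ := by gcongr
      have h5 : 1 / (64 * (n : ℝ)) ≤ 1 / (8 * n) := by
        apply one_div_le_one_div_of_le (by positivity)
        linarith
      linarith

end Pool.Agent.H967R2.PosForm
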