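import Pool.Agent.H967R2.PosSeq

set_option autoImplicit false

namespace Pool.Agent.H967R2.PosForm

open Finset

/-- distance to the nearest integer -/
noncomputable def nint (y : ℝ) : ℝ := |y - round y|

lemma nint_le (y : ℝ) (l : ℤ) : nint y ≤ |y - l| := by
  unfold nint
  exact round_le y l

lemma nint_exists (y : ℝ) : ∃ l : ℤ, nint y = |y - l| := ⟨round y, rfl⟩

lemma nint_nonneg (y : ℝ) : 0 ≤ nint y := abs_nonneg _

namespace Data

variable (S : Data) {m : ℕ}

/-- for positive vectors -/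
lemma N_pos_le (k : ℕ) (x : Fin m → ℕ) :
    (S.N m (k + 1) (fun i => (x i : ℤ)) : ℝ) ≤ 3 * S.D k * ∑ i, (x i : ℝ) := by
  unfold N
  push_cast
  rw [Finset.mul_sum]
  refine Finset.sum_le_sum fun i _ => ?_
  have h := S.ν_succ_le k i
  have h1 : (S.ν m (k + 1) i : ℝ) ≤ 3 * S.D k := by exact_mod_cast h
  exact mul_le_mul_of_nonneg_right h1 (by positivity)

lemma N_pos_ge (k : ℕ) (x : Fin m → ℕ) :
    (S.D k : ℝ) * ∑ i, (x i : ℝ) ≤ S.N m (k + 1) (fun i => (x i : ℤ)) := by
  unfold N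
  push_cast
  rw [Finset.mul_sum]
  refine Finset.sum_le_sum fun i _ => ?_
  have h := S.ν_succ_ge k i
  have h1 : (S.D k : ℝ) ≤ S.ν m (k + 1) i := by exact_mod_cast h
  exact mul_le_mul_of_nonneg_right h1 (by positivity)

lemma N_nonneg (k : ℕ) (x : Fin m → ℕ) : 0 ≤ S.N m k (fun i => (x i : ℤ)) := by
  unfold N
  exact Finset.sum_nonneg fun i _ => by positivity

/-- tail bounds for positive vectors -/
lemma E_bounds (k : ℕ) (x : Fin m → ℕ) (s : ℝ) (hs : s = ∑ i, (x i : ℝ)) :
    S.δ k * (S.D k * s) ≤ S.E m k (fun i => (x i : ℤ)) ∧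
    S.E m k (fun i => (x i : ℤ)) ≤ 2 * (S.δ k * S.N m (k + 1) (fun i => (x i : ℤ))) := by
  set b : Fin m → ℤ := fun i => (x i : ℤ) with hb
  have hs0 : 0 ≤ s := by rw [hs]; positivity
  -- term j ≤ (1/2)^j * a_k
  have hterm : ∀ j, S.δ (k + j) * (S.N m (k + j + 1) b : ℝ) ≤ (1 / 2) ^ j * (S.δ k * S.N m (k + 1) b) := by
    intro j
    induction j with
    | zero => simp
    | succ j ih =>
      have h1 := S.N_pos_le (k + j + 1) x
      have h2 := S.N_pos_ge (k + j) x
      rw [← hs] at h1 h2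
      have h3 := S.δD_decr (k + j)
      have h4 := S.δpos (k + j + 1)
      have h5 := S.δpos (k + j)
      calc S.δ (k + (j + 1)) * (S.N m (k + (j + 1) + 1) b : ℝ)
          = S.δ (k + j + 1) * (S.N m (k + j + 1 + 1) b : ℝ) := by rw [← add_assoc]
        _ ≤ S.δ (k + j + 1) * (3 * S.D (k + j + 1) * s) := by gcongr
        _ = (1 / 2) * (6 * (S.δ (k + j + 1) * S.D (k + j + 1))) * s := by ring
        _ ≤ (1 / 2) * (S.δ (k + j) * S.D (k + j)) * s := by gcongr
        _ = (1 / 2) * (S.δ (k + j) * (S.D (k + j) * s)) := by ring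
        _ ≤ (1 / 2) * (S.δ (k + j) * S.N m (k + j + 1) b) := by gcongr
        _ ≤ (1 / 2) * ((1 / 2) ^ j * (S.δ k * S.N m (k + 1) b)) := by gcongr
        _ = _ := by rw [pow_succ]; ring
  have hsum := S.summ b k
  have hnn : ∀ j, 0 ≤ S.δ (k + j) * (S.N m (k + j + 1) b : ℝ) := by
    intro j
    have h1 := S.N_nonneg (k + j + 1) x
    have h2 : (0 : ℝ) ≤ (S.N m (k + j + 1) b : ℝ) := by exact_mod_cast h1
    have h3 := S.δpos (k + j)
    positivity
  constructor
  · calc S.δ k * (S.D k * s) ≤ S.δ k * S.N m (k + 1) b := by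
          have := S.N_pos_ge k x
          rw [← hs] at this
          have h3 := S.δpos k
          gcongr
      _ = S.δ (k + 0) * (S.N m (k + 0 + 1) b : ℝ) := by simp
      _ ≤ S.E m k b := by
          unfold E
          exact hsum.le_tsum 0 (fun j _ => hnn j)
  · unfold E
    have hg : Summable (fun j : ℕ => (1 / 2 : ℝ) ^ j * (S.δ k * S.N m (k + 1) b)) :=
      (summable_geometric_of_lt_one (by norm_num) (by norm_num)).mul_right _
    refine (hsum.tsum_le_tsum hterm hg).trans ?_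
    rw [tsum_mul_right, tsum_geometric_two]

/-- The two cases for a positive vector. -/
lemma dichotomy (x : Fin m → ℕ) (s : ℝ) (hs : s = ∑ i, (x i : ℝ)) (hs1 : 1 ≤ s) :
    ∃ k : ℕ, (0 < k → ((S.D k : ℝ) ≤ 3 * S.D (k - 1) * s ∧
        S.δ k * (S.D k * s) ≤ nint (∑ i, S.Θ m i * x i)) ∨
        1 / 13824 * s ^ (-gold) ≤ nint (∑ i, S.Θ m i * x i)) ∧
      (k = 0 → S.δ 0 * (S.D 0 * s) ≤ nint (∑ i, S.Θ m i * x i)) := by
  classical
  set b : Fin m → ℤ := fun i => (x i : ℤ) with hb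
  have hlin : ∑ i, S.Θ m i * (x i : ℝ) = ∑ i, S.Θ m i * (b i : ℝ) := by
    refine Finset.sum_congr rfl fun i _ => ?_
    simp [hb]
  rw [hlin]
  -- existence of k
  have hex : ∃ k, S.D k * S.δ k * (S.N m (k + 1) b : ℝ) < 1 / 4 := by
    obtain ⟨k, hk⟩ := exists_nat_gt (18 * s)
    refine ⟨k, ?_⟩
    have h1 := S.N_pos_le k x
    rw [← hs] at h1
    have h2 := S.δD_upper k
    have h3 := S.Dpos' k
    have h4 := S.δpos k
    have h5 := S.DleX k
    have h6 : (k : ℝ) ≤ S.D k := by exact_mod_cast S.Dgek k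
    calc S.D k * S.δ k * (S.N m (k + 1) b : ℝ) ≤ S.D k * S.δ k * (3 * S.D k * s) := by gcongr
      _ = (S.δ k * S.D k) * (3 * S.D k * s) := by ring
      _ ≤ (3 / (2 * (S.D k : ℝ) * (S.D k : ℝ) ^ gold)) * (3 * S.D k * s) := by gcongr
      _ ≤ (3 / (2 * (S.D k : ℝ) * (S.D k : ℝ))) * (3 * S.D k * s) := by gcongr
      _ = (9 / 2) * s / S.D k := by field_simp; norm_num
      _ < 1 / 4 := by
          rw [div_lt_iff₀ h3]
          linarith
  obtain ⟨k, hk, hmin⟩ : ∃ k, S.D k * S.δ k * (S.N m (k + 1) b : ℝ) < 1 / 4 ∧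
      ∀ j < k, ¬ (S.D j * S.δ j * (S.N m (j + 1) b : ℝ) < 1 / 4) :=
    ⟨Nat.find hex, Nat.find_spec hex, fun j hj => Nat.find_min hex hj⟩
  obtain ⟨z, hz⟩ := S.stage b k
  obtain ⟨hE1, hE2⟩ := S.E_bounds k x s hs
  rw [← hb] at hE1 hE2
  set Ek := S.E m k b with hEk
  have hD := S.Dpos' k
  have hD1 := S.Dpos k
  have hE3 : Ek < 1 / (2 * S.D k) := by
    rw [lt_div_iff₀ (by positivity)]
    nlinarith
  have hE0 : 0 < Ek := by
    have := S.δpos k
    have : 0 < S.δ k * (S.D k * s) := by positivity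
    linarith
  have hE4 : Ek < 1 / 2 := by
    apply hE3.trans_le
    apply one_div_le_one_div_of_le (by norm_num)
    linarith
  -- case: D_k | N_k
  have hcaseB : (S.D k : ℤ) ∣ S.N m k b → S.δ k * (S.D k * s) ≤ nint (∑ i, S.Θ m i * (b i : ℝ)) := by
    rintro ⟨j, hj⟩
    obtain ⟨l, hl⟩ := nint_exists (∑ i, S.Θ m i * (b i : ℝ))
    rw [hl, hz, hj]
    have e : (S.p k : ℝ) / S.D k * ((S.D k * j : ℤ) : ℝ) + z + Ek - l
        = ((S.p k * j + z - l : ℤ) : ℝ) + Ek := by
      push_cast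
      field_simp
      ring
    rw [e]
    by_cases h0 : S.p k * j + z - l = 0
    · rw [h0]
      simp only [Int.cast_zero, zero_add]
      exact hE1.trans (le_abs_self _)
    · have h1 : (1 : ℝ) ≤ |((S.p k * j + z - l : ℤ) : ℝ)| := by
        have := Int.one_le_abs h0
        exact_mod_cast this
      have h2 : |((S.p k * j + z - l : ℤ) : ℝ)| ≤ |((S.p k * j + z - l : ℤ) : ℝ) + Ek| + |Ek| := by
        have := abs_sub (((S.p k * j + z - l : ℤ) : ℝ) + Ek) Ek
        simpa using this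
      rw [abs_of_pos hE0] at h2
      linarith
  refine ⟨k, ?_, ?_⟩
  · intro hk0
    obtain ⟨k', rfl⟩ : ∃ k', k = k' + 1 := ⟨k - 1, by omega⟩
    simp only [Nat.add_sub_cancel]
    have hNub := S.N_pos_le k' x
    have hNlb := S.N_pos_ge k' x
    rw [← hs, ← hb] at hNub hNlb
    have hDk' := S.Dpos' k'
    have hDk1' := S.Dpos k'
    have hNpos : (0 : ℝ) < S.N m (k' + 1) b := by
      have : 0 < (S.D k' : ℝ) * s := by positivity
      linarith
    by_cases hdvd : (S.D (k' + 1) : ℤ) ∣ S.N m (k' + 1) b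
    · left
      refine ⟨?_, hcaseB hdvd⟩
      have h1 : (S.D (k' + 1) : ℤ) ≤ S.N m (k' + 1) b := Int.le_of_dvd (by exact_mod_cast hNpos) hdvd
      have h2 : (S.D (k' + 1) : ℝ) ≤ S.N m (k' + 1) b := by exact_mod_cast h1
      linarith
    · right
      -- natural number n = N
      obtain ⟨n, hn⟩ : ∃ n : ℕ, S.N m (k' + 1) b = n := by
        obtain ⟨n, hn⟩ := Int.eq_ofNat_of_zero_le (S.N_nonneg (k' + 1) x)
        exact ⟨n, hn⟩
      have hnr : (S.N m (k' + 1) b : ℝ) = n := by rw [hn]; simp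
      have hn0 : (0 : ℝ) < n := by rw [← hnr]; exact hNpos
      have hdvd' : ¬ S.D (k' + 1) ∣ n := by
        intro h
        apply hdvd
        rw [hn]
        exact_mod_cast h
      have hthr := hmin k' (by omega)
      push Not at hthr
      have hthr' : 1 / 4 ≤ n * (S.D k' * S.δ k') := by
        rw [← hnr]; linarith
      obtain ⟨l, hl⟩ := nint_exists (∑ i, S.Θ m i * (b i : ℝ))
      have hb1 := S.bad k' n (l - z) hthr' hdvd'
      -- also ≥ 1 / D
      have hb2 : 1 / (S.D (k' + 1) : ℝ) ≤ |(n : ℝ) * ((S.p (k' + 1) : ℝ) / S.D (k' + 1)) - ((l - z : ℤ) : ℝ)| := by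
        have hne : (n : ℤ) * S.p (k' + 1) - (l - z) * S.D (k' + 1) ≠ 0 := by
          intro h0
          apply hdvd'
          have h2 : (S.D (k' + 1) : ℤ) ∣ n * S.p (k' + 1) := ⟨l - z, by linarith⟩
          have h3 : (S.D (k' + 1) : ℤ) ∣ n := (S.cop (k' + 1)).symm.dvd_of_dvd_mul_right h2
          exact_mod_cast h3
        have h16 : (1 : ℝ) ≤ |(n : ℝ) * S.p (k' + 1) - (l - z) * S.D (k' + 1)| := by
          have := Int.one_le_abs hne
          have h17 : ((1 : ℤ) : ℝ) ≤ ((|(n : ℤ) * S.p (k' + 1) - (l - z) * S.D (k' + 1)| : ℤ) : ℝ) := by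
            exact_mod_cast this
          push_cast at h17
          exact h17
        have h18 : (n : ℝ) * ((S.p (k' + 1) : ℝ) / S.D (k' + 1)) - ((l - z : ℤ) : ℝ)
            = ((n : ℝ) * S.p (k' + 1) - (l - z) * S.D (k' + 1)) / S.D (k' + 1) := by
          push_cast
          field_simp
        rw [h18, abs_div, abs_of_pos hD]
        gcongr
      have hmain : 1 / (256 * (n : ℝ)) ≤ nint (∑ i, S.Θ m i * (b i : ℝ)) := by
        rw [hl, hz, hnr]
        have e : (S.p (k' + 1) : ℝ) / S.D (k' + 1) * n + z + Ek - l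
            = ((n : ℝ) * ((S.p (k' + 1) : ℝ) / S.D (k' + 1)) - ((l - z : ℤ) : ℝ)) + Ek := by
          push_cast; ring
        rw [e]
        set y : ℝ := (n : ℝ) * ((S.p (k' + 1) : ℝ) / S.D (k' + 1)) - ((l - z : ℤ) : ℝ) with hy
        have h2 : |y| ≤ |y + Ek| + |Ek| := by
          have := abs_sub (y + Ek) Ek
          simpa using this
        rw [abs_of_pos hE0] at h2
        have h3 : Ek < |y| / 2 := by
          calc Ek < 1 / (2 * S.D (k' + 1)) := hE3
            _ = (1 / (S.D (k' + 1) : ℝ)) / 2 := by field_simp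
            _ ≤ |y| / 2 := by gcongr
        have h4 : 1 / (256 * (n : ℝ)) = (1 / (128 * (n : ℝ))) / 2 := by field_simp; norm_num
        rw [h4]
        linarith
      -- bound D_{k'} in terms of s
      have h5 : (S.D k' : ℝ) ^ gold ≤ 18 * s := by
        have h6 := S.δD_upper k'
        have h7 : 1 / 4 ≤ (3 * S.D k' * s) * (3 / (2 * (S.D k' : ℝ) * (S.D k' : ℝ) ^ gold)) := by
          calc 1 / 4 ≤ n * (S.D k' * S.δ k') := hthr'
            _ = (S.N m (k' + 1) b : ℝ) * (S.δ k' * S.D k') := by rw [hnr]; ring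
            _ ≤ (3 * S.D k' * s) * (3 / (2 * (S.D k' : ℝ) * (S.D k' : ℝ) ^ gold)) := by
                apply mul_le_mul hNub h6
                · have := S.δpos k'
                  positivity
                · positivity
        have h8 : (3 * S.D k' * s) * (3 / (2 * (S.D k' : ℝ) * (S.D k' : ℝ) ^ gold))
            = (9 / 2) * s / (S.D k' : ℝ) ^ gold := by
          have := S.X1 k'
          field_simp
          norm_num
        rw [h8, le_div_iff₀ (by have := S.X1 k'; linarith)] at h7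
        linarith
      have hg1 := gold_gt
      have hg2 := gold_lt
      have h9 : (S.D k' : ℝ) ≤ (18 * s) ^ (gold - 1) := by
        have h10 : ((S.D k' : ℝ) ^ gold) ^ (gold - 1) ≤ (18 * s) ^ (gold - 1) := by
          apply Real.rpow_le_rpow (by have := S.X1 k'; linarith) h5
          linarith
        rw [← Real.rpow_mul hDk'.le] at h10
        have h11 : gold * (gold - 1) = 1 := by have := gold_sq; linarith
        rw [h11, Real.rpow_one] at h10
        exact h10
      have h12 : (18 * s) ^ (gold - 1) ≤ 18 * s ^ (gold - 1) := by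
        rw [Real.mul_rpow (by norm_num) (by linarith)]
        have h13 : (18 : ℝ) ^ (gold - 1) ≤ 18 ^ (1 : ℝ) := by
          apply Real.rpow_le_rpow_of_exponent_le (by norm_num)
          linarith
        rw [Real.rpow_one] at h13
        have h14 : 0 ≤ s ^ (gold - 1) := Real.rpow_nonneg (by linarith) _
        gcongr
      have hs0 : 0 < s := by linarith
      refine le_trans ?_ hmain
      have h15 : (n : ℝ) ≤ 54 * s ^ gold := by
        rw [← hnr]
        calc (S.N m (k' + 1) b : ℝ) ≤ 3 * S.D k' * s := hNub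
          _ ≤ 3 * (18 * s ^ (gold - 1)) * s := by
              have := h9.trans h12
              gcongr
          _ = 54 * (s ^ (gold - 1) * s ^ (1 : ℝ)) := by rw [Real.rpow_one]; ring
          _ = 54 * s ^ gold := by
              rw [← Real.rpow_add hs0]
              ring_nf
      rw [Real.rpow_neg hs0.le]
      calc 1 / 13824 * (s ^ gold)⁻¹ = 1 / (256 * (54 * s ^ gold)) := by
            have : 0 < s ^ gold := Real.rpow_pos_of_pos hs0 _
            field_simp
            norm_num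
        _ ≤ 1 / (256 * n) := by
            apply one_div_le_one_div_of_le (by positivity)
            linarith
  · intro hk0
    subst hk0
    have h1 : (S.D 0 : ℤ) ∣ S.N m 0 b := by rw [S.N_zero]; exact dvd_zero _
    exact hcaseB h1

/-- δ D is antitone -/
lemma δD_anti {i j : ℕ} (h : i ≤ j) : S.δ j * S.D j ≤ S.δ i * S.D i := by
  obtain ⟨l, rfl⟩ := Nat.exists_eq_add_of_le h
  refine (S.δD_le i l).trans ?_
  have h1 := S.δpos i
  have h2 := S.Dpos' i
  have h3 : ((1 : ℝ) / 6) ^ l ≤ 1 := pow_le_one₀ (by norm_num) (by norm_num)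
  calc ((1 : ℝ) / 6) ^ l * (S.δ i * S.D i) ≤ 1 * (S.δ i * S.D i) := by gcongr
    _ = _ := one_mul _

/-- The lower bound for every exponent larger than the golden ratio. -/
theorem lower (γ : ℝ) (hγ : gold < γ) :
    ∃ c : ℝ, 0 < c ∧ ∀ (x : Fin m → ℕ) (s : ℝ), s = ∑ i, (x i : ℝ) → 1 ≤ s →
      c * s ^ (-γ) ≤ nint (∑ i, S.Θ m i * x i) := by
  have hg1 := gold_gt
  have hg2 := gold_lt
  -- choose k0 with 1/(k0) ≤ η
  set η : ℝ := (γ - gold) / (1 + γ) with hη
  have hη0 : 0 < η := by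
    apply div_pos <;> linarith
  obtain ⟨k0, hk0⟩ := exists_nat_gt (1 / η)
  have hk0' : (0 : ℝ) < k0 := lt_trans (by positivity) hk0
  have hc1 : 0 < S.δ (k0 + 1) * S.D (k0 + 1) := by
    have := S.δpos (k0 + 1)
    have := S.Dpos' (k0 + 1)
    positivity
  set c2 : ℝ := 1 / (8 * 3 ^ (1 + γ)) with hc2
  have hc20 : 0 < c2 := by positivity
  refine ⟨min (1 / 13824) (min (S.δ (k0 + 1) * S.D (k0 + 1)) c2), by positivity, ?_⟩
  intro x s hs hs1
  have hs0 : 0 < s := by linarith
  have hsγ0 : 0 < s ^ (-γ) := Real.rpow_pos_of_pos hs0 _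
  have hsγ1 : s ^ (-γ) ≤ 1 := by
    apply Real.rpow_le_one_of_one_le_of_nonpos hs1
    linarith
  have hsmall : ∀ k, k ≤ k0 + 1 → S.δ k * (S.D k * s) ≤ nint (∑ i, S.Θ m i * x i) →
      S.δ (k0 + 1) * S.D (k0 + 1) * s ^ (-γ) ≤ nint (∑ i, S.Θ m i * x i) := by
    intro k hk h
    refine le_trans ?_ h
    calc S.δ (k0 + 1) * S.D (k0 + 1) * s ^ (-γ) ≤ S.δ (k0 + 1) * S.D (k0 + 1) * 1 := by gcongr
      _ = S.δ (k0 + 1) * S.D (k0 + 1) := mul_one _
      _ ≤ S.δ k * S.D k := S.δD_anti hk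
      _ = S.δ k * S.D k * 1 := (mul_one _).symm
      _ ≤ S.δ k * S.D k * s := by
          have := S.δpos k
          have := S.Dpos' k
          gcongr
      _ = _ := by ring
  have hmin1 : ∀ {a : ℝ}, min (1 / 13824) (min (S.δ (k0 + 1) * S.D (k0 + 1)) c2) ≤ a →
      a * s ^ (-γ) ≤ nint (∑ i, S.Θ m i * x i) →
      min (1 / 13824) (min (S.δ (k0 + 1) * S.D (k0 + 1)) c2) * s ^ (-γ) ≤
        nint (∑ i, S.Θ m i * x i) := by
    intro a h1 h2
    refine le_trans ?_ h2
    gcongr
  obtain ⟨k, hA, hB⟩ := S.dichotomy x s hs hs1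
  rcases Nat.eq_zero_or_pos k with hk | hk
  · exact hmin1 ((min_le_right _ _).trans (min_le_left _ _))
      (hsmall 0 (Nat.zero_le _) (hB hk))
  rcases hA hk with ⟨h1, h2⟩ | h
  · by_cases hkk : k ≤ k0 + 1
    · exact hmin1 ((min_le_right _ _).trans (min_le_left _ _)) (hsmall k hkk h2)
    · push Not at hkk
      apply hmin1 ((min_le_right _ _).trans (min_le_right _ _))
      refine le_trans ?_ h2
      obtain ⟨k', rfl⟩ : ∃ k', k = k' + 1 := ⟨k - 1, by omega⟩
      simp only [Nat.add_sub_cancel] at h1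
      have hk'0 : k0 < k' := by omega
      -- D_{k'} ≤ D_k^η
      have hD := S.Dpos' (k' + 1)
      have hD1 := S.Dpos (k' + 1)
      have hD' := S.Dpos' k'
      have hD1' := S.Dpos k'
      have hgr : (S.D k' : ℝ) ^ (k' : ℝ) ≤ S.D (k' + 1) := by
        rw [Real.rpow_natCast]
        exact_mod_cast S.growk k'
      have hk'pos : (0 : ℝ) < k' := by
        have : (k0 : ℝ) < k' := by exact_mod_cast hk'0
        linarith
      have h3 : (S.D k' : ℝ) ≤ (S.D (k' + 1) : ℝ) ^ η := by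
        have h4 : ((S.D k' : ℝ) ^ (k' : ℝ)) ^ η ≤ (S.D (k' + 1) : ℝ) ^ η :=
          Real.rpow_le_rpow (by positivity) hgr hη0.le
        rw [← Real.rpow_mul hD'.le] at h4
        refine le_trans ?_ h4
        conv_lhs => rw [← Real.rpow_one (S.D k' : ℝ)]
        apply Real.rpow_le_rpow_of_exponent_le hD1'
        have h5 : (k0 : ℝ) ≤ k' := by exact_mod_cast hk'0.le
        rw [div_lt_iff₀ hη0] at hk0
        nlinarith
      have h6 : (S.D (k' + 1) : ℝ) ^ (1 - η) ≤ 3 * s := by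
        have h7 : (S.D (k' + 1) : ℝ) ≤ 3 * (S.D (k' + 1) : ℝ) ^ η * s := by
          refine h1.trans ?_
          gcongr
        have h8 : (S.D (k' + 1) : ℝ) = (S.D (k' + 1) : ℝ) ^ (1 - η) * (S.D (k' + 1) : ℝ) ^ η := by
          rw [← Real.rpow_add hD]
          ring_nf
          rw [Real.rpow_one]
        have h9 : 0 < (S.D (k' + 1) : ℝ) ^ η := Real.rpow_pos_of_pos hD _
        rw [h8] at h7
        have h10 : (S.D (k' + 1) : ℝ) ^ (1 - η) * (S.D (k' + 1) : ℝ) ^ η ≤ (3 * s) * (S.D (k' + 1) : ℝ) ^ η := by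
          refine le_trans ?_ (le_of_eq (by ring : 3 * (S.D (k' + 1) : ℝ) ^ η * s = _))
          rw [← h8]
          rw [← h8] at h7
          exact h7
        exact le_of_mul_le_mul_right h10 h9
      have h11 : (S.D (k' + 1) : ℝ) * (S.D (k' + 1) : ℝ) ^ gold ≤ (3 * s) ^ (1 + γ) := by
        have h12 : ((S.D (k' + 1) : ℝ) ^ (1 - η)) ^ (1 + γ) ≤ (3 * s) ^ (1 + γ) := by
          apply Real.rpow_le_rpow (by positivity) h6
          linarith
        rw [← Real.rpow_mul hD.le] at h12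
        have h13 : (1 - η) * (1 + γ) = 1 + gold := by
          rw [hη]
          have : (1 + γ) ≠ 0 := by linarith
          field_simp
          ring
        rw [h13, Real.rpow_add hD, Real.rpow_one] at h12
        exact h12
      have h14 := S.δD_lower (k' + 1)
      have hX := S.X1 (k' + 1)
      calc c2 * s ^ (-γ) = 1 / (8 * (3 * s) ^ (1 + γ)) * s := by
            rw [hc2, Real.mul_rpow (by norm_num) hs0.le, Real.rpow_neg hs0.le,
              Real.rpow_add hs0, Real.rpow_one]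
            have h15 : 0 < s ^ γ := Real.rpow_pos_of_pos hs0 _
            field_simp
        _ ≤ 1 / (8 * ((S.D (k' + 1) : ℝ) * (S.D (k' + 1) : ℝ) ^ gold)) * s := by gcongr
        _ = 1 / (8 * (S.D (k' + 1) : ℝ) * (S.D (k' + 1) : ℝ) ^ gold) * s := by ring_nf
        _ ≤ (S.δ (k' + 1) * S.D (k' + 1)) * s := by gcongr
        _ = _ := by ring
  · apply hmin1 (min_le_left _ _)
    refine le_trans ?_ h
    gcongr

end Data

end Pool.Agent.H967R2.PosForm
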