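import Pool.Agent.H967R2.PosForm

set_option autoImplicit false

namespace Pool.Agent.H967R2.PosForm

open Finset

/-- there are good rational approximations with arbitrarily large denominator -/
lemma exists_good_rat (α : ℝ) (hα : Irrational α) (B : ℕ) :
    ∃ q : ℚ, |α - q| < 1 / (q.den : ℝ) ^ 2 ∧ B ≤ q.den := by
  by_contra hcon
  push Not at hcon
  have hinf := Real.infinite_rat_abs_sub_lt_one_div_den_sq_of_irrational hα
  apply hinf
  -- the set is contained in the image of a finite set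
  have hfin : (Set.image (fun z : ℤ × ℕ => (z.1 : ℚ) / z.2)
      ((Set.Icc (-(⌈(|α| + 1) * B⌉ : ℤ)) (⌈(|α| + 1) * B⌉ : ℤ)) ×ˢ (Set.Iio B))).Finite := by
    apply Set.Finite.image
    exact (Set.finite_Icc _ _).prod (Set.finite_Iio _)
  apply hfin.subset
  intro q hq
  have hq' : |α - q| < 1 / (q.den : ℝ) ^ 2 := hq
  have hB := hcon q hq'
  refine ⟨(q.num, q.den), ⟨?_, hB⟩, Rat.num_div_den q⟩
  have hden : (1 : ℝ) ≤ q.den := by exact_mod_cast q.pos
  have h1 : |α - q| < 1 := by
    apply hq'.trans_le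
    rw [div_le_one (by positivity)]
    nlinarith
  have h2 : |(q : ℝ)| ≤ |α| + 1 := by
    have h3 : |(q : ℝ)| ≤ |α| + |α - q| := by
      have := abs_sub α (α - q)
      simpa using this
    linarith
  have h4 : (q : ℝ) = q.num / q.den := by
    have := Rat.num_div_den q
    exact_mod_cast this.symm
  have h5 : |(q.num : ℝ)| ≤ (|α| + 1) * B := by
    have h6 : (q.num : ℝ) = q * q.den := by
      rw [h4]; field_simp
    rw [h6, abs_mul]
    have h7 : |(q.den : ℝ)| ≤ B := by
      rw [abs_of_nonneg (by positivity)]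
      exact_mod_cast hB.le
    exact mul_le_mul h2 h7 (abs_nonneg _) (by positivity)
  have h8 : |(q.num : ℝ)| ≤ ((⌈(|α| + 1) * B⌉ : ℤ) : ℝ) := h5.trans (Int.le_ceil _)
  rw [abs_le] at h8
  constructor
  · have := h8.1
    exact_mod_cast this
  · have := h8.2
    exact_mod_cast this

lemma exists_next (D : ℕ) (hD : 1 ≤ D) (p : ℤ) (hp : IsCoprime p (D : ℤ)) (X : ℝ) (hX : 1 ≤ X)
    (B : ℕ) :
    ∃ (D' : ℕ) (p' : ℤ), 1 ≤ D' ∧ B ≤ D' ∧ IsCoprime p' (D' : ℤ) ∧
      1 / (8 * (D : ℝ) ^ 2 * X) ≤ (p' : ℝ) / D' - p / D ∧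
      (p' : ℝ) / D' - p / D ≤ 3 / (2 * (D : ℝ) ^ 2 * X) ∧
      ∀ (n : ℕ) (l : ℤ), 1 / 4 ≤ n * (D * ((p' : ℝ) / D' - p / D)) → ¬ D' ∣ n →
        1 / (128 * (n : ℝ)) ≤ |(n : ℝ) * ((p' : ℝ) / D') - l| := by
  have hD0 : (0 : ℝ) < D := by exact_mod_cast hD
  obtain ⟨α, ζ, hζ0, hα, hζl, hζu, hbad⟩ := exists_alpha D hD p hp X hX
  have hirr : Irrational α := by
    rintro ⟨q, hq⟩
    obtain ⟨N, hN⟩ := exists_nat_gt (1 / ζ)
    have hN0 : (0 : ℝ) < N := lt_trans (by positivity) hN
    have hqd : (1 : ℝ) ≤ q.den := by exact_mod_cast q.pos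
    have h1 := hbad (N * q.den) (N * q.num) (by
      push_cast
      have h2 : 1 ≤ N * ζ := by
        rw [div_lt_iff₀ hζ0] at hN
        exact hN.le
      have : (N : ℝ) * q.den * ζ = (N * ζ) * q.den := by ring
      rw [this]
      nlinarith)
    have h4 : (q : ℝ) = q.num / q.den := by
      have := Rat.num_div_den q
      exact_mod_cast this.symm
    have h3 : ((N * q.den : ℕ) : ℝ) * α - ((N * q.num : ℤ) : ℝ) = 0 := by
      rw [← hq, h4]
      push_cast
      field_simp
      ring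
    rw [h3, abs_zero] at h1
    have : 0 < 1 / (64 * ((N * q.den : ℕ) : ℝ)) := by
      push_cast
      positivity
    linarith
  obtain ⟨B', hB'⟩ := exists_nat_gt (2 * D / ζ)
  obtain ⟨q, hq, hqB⟩ := exists_good_rat α hirr (max B (B' + 1))
  have hqd : (1 : ℝ) ≤ q.den := by exact_mod_cast q.pos
  have h4 : (q : ℝ) = (q.num : ℝ) / (q.den : ℕ) := by
    have := Rat.num_div_den q
    exact_mod_cast this.symm
  have hcop : IsCoprime q.num (q.den : ℤ) := Rat.isCoprime_num_den q
  have hsmall : 1 / (q.den : ℝ) ^ 2 ≤ ζ / (2 * D) := by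
    have h5 : 2 * D / ζ < q.den := by
      apply hB'.trans
      have : B' + 1 ≤ q.den := le_trans (le_max_right _ _) hqB
      exact_mod_cast this
    have h6 : 2 * D / ζ ≤ (q.den : ℝ) ^ 2 := by nlinarith
    have h7 : 1 / (q.den : ℝ) ^ 2 ≤ 1 / (2 * D / ζ) :=
      one_div_le_one_div_of_le (by positivity) h6
    rwa [one_div_div] at h7
  have hdiff := hq.trans_le hsmall
  rw [abs_lt] at hdiff
  have hδ : (q.num : ℝ) / (q.den : ℕ) - p / D = ζ / D - (α - q) := by
    rw [← h4, hα]; ring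
  have hζD : ζ / (2 * D) = (ζ / D) / 2 := by field_simp
  have hX0 : 0 < X := by linarith
  refine ⟨q.den, q.num, q.pos, le_trans (le_max_left _ _) hqB, hcop, ?_, ?_, ?_⟩
  · rw [hδ]
    have h8 : 1 / (8 * (D : ℝ) ^ 2 * X) ≤ (ζ / D) / 2 := by
      calc 1 / (8 * (D : ℝ) ^ 2 * X) = (1 / (D * (4 * X))) / D / 2 := by field_simp; norm_num
        _ ≤ (1 / (D * (X + 3))) / D / 2 := by
            gcongr
            linarith
        _ ≤ _ := by gcongr
    rw [hζD] at hdiff
    linarith [hdiff.2]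
  · rw [hδ]
    have h8 : (ζ / D) * (3 / 2) ≤ 3 / (2 * (D : ℝ) ^ 2 * X) := by
      calc (ζ / D) * (3 / 2) ≤ ((1 / (D * X)) / D) * (3 / 2) := by gcongr
        _ = _ := by field_simp
    rw [hζD] at hdiff
    linarith [hdiff.1]
  · intro n l hn hdvd
    rw [hδ] at hn
    have hn1 : 1 ≤ n := by
      rcases Nat.eq_zero_or_pos n with h | h
      · subst h; norm_num at hn
      · exact h
    have hn0 : (0 : ℝ) < n := by exact_mod_cast hn1
    have hnζ : 1 / 8 ≤ n * ζ := by
      have h9 : D * (ζ / D - (α - q)) ≤ D * ((ζ / D) * (3 / 2)) := by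
        apply mul_le_mul_of_nonneg_left _ hD0.le
        rw [hζD] at hdiff
        linarith [hdiff.1]
      have h10 : D * ((ζ / D) * (3 / 2)) = ζ * (3 / 2) := by field_simp
      rw [h10] at h9
      have h11 : (n : ℝ) * (D * (ζ / D - (α - q))) ≤ n * (ζ * (3 / 2)) := by gcongr
      linarith
    have h1 := hbad n l hnζ
    set d : ℝ := ((q.den : ℕ) : ℝ) with hd
    by_cases hcase : 12 * (n : ℝ) ≤ d
    · have h12 : |(n : ℝ) * α - l| ≤ |(n : ℝ) * (q.num / d) - l| + n * (1 / d ^ 2) := by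
        have e : (n : ℝ) * α - l = ((n : ℝ) * (q.num / d) - l) + n * (α - q) := by
          rw [h4]; ring
        rw [e]
        refine (abs_add_le _ _).trans ?_
        rw [abs_mul, abs_of_pos hn0]
        gcongr
      have h13 : (n : ℝ) * (1 / d ^ 2) ≤ 1 / (144 * n) := by
        have h14 : (12 * (n : ℝ)) ^ 2 ≤ d ^ 2 := by gcongr
        rw [mul_one_div, div_le_div_iff₀ (by positivity) (by positivity)]
        nlinarith
      have h15 : 1 / (128 * (n : ℝ)) + 1 / (144 * n) ≤ 1 / (64 * n) := by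
        have : (1 : ℝ) / (64 * n) - (1 / (128 * n) + 1 / (144 * n)) = (1 / 64 - 1 / 128 - 1 / 144) / n := by
          field_simp
          ring
        have h16 : 0 ≤ ((1 : ℝ) / 64 - 1 / 128 - 1 / 144) / n := by
          apply div_nonneg _ hn0.le
          norm_num
        linarith
      linarith
    · push Not at hcase
      have hne : (n : ℤ) * q.num - l * q.den ≠ 0 := by
        intro h0
        apply hdvd
        have h2 : (q.den : ℤ) ∣ n * q.num := ⟨l, by linarith⟩
        have h3 : (q.den : ℤ) ∣ n := hcop.symm.dvd_of_dvd_mul_right h2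
        exact_mod_cast h3
      have h16 : (1 : ℝ) ≤ |(n : ℝ) * q.num - l * d| := by
        have := Int.one_le_abs hne
        have h17 : ((1 : ℤ) : ℝ) ≤ ((|(n : ℤ) * q.num - l * q.den| : ℤ) : ℝ) := by exact_mod_cast this
        push_cast at h17
        exact h17
      have hd0 : 0 < d := by linarith
      have h18 : (n : ℝ) * (q.num / d) - l = ((n : ℝ) * q.num - l * d) / d := by
        field_simp
      rw [h18, abs_div, abs_of_pos hd0]
      calc 1 / (128 * (n : ℝ)) ≤ 1 / d := by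
            apply one_div_le_one_div_of_le hd0
            linarith
        _ ≤ _ := by gcongr

end Pool.Agent.H967R2.PosForm
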