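import Pool.Agent.H967R2.PosNext

set_option autoImplicit false

namespace Pool.Agent.H967R2.PosForm

open Finset

/-- the golden ratio -/
noncomputable def gold : ℝ := (1 + √5) / 2

lemma gold_gt : 1.6 < gold := by unfold gold; have := sqrt5_gt; linarith
lemma gold_lt : gold < 1.7 := by unfold gold; have := sqrt5_lt; linarith
lemma gold_sq : gold * gold = gold + 1 := by
  unfold gold
  linear_combination (1 / 4) * sqrt5_sq

/-- The data of the construction. -/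
structure Data where
  D : ℕ → ℕ
  p : ℕ → ℤ
  D0 : D 0 = 1
  p0 : p 0 = 0
  D1 : ∀ k, 1 ≤ D k
  grow : ∀ k, 72 * (D k) ^ 3 + (D k) ^ k ≤ D (k + 1)
  cop : ∀ k, IsCoprime (p k) (D k : ℤ)
  dl : ∀ k, 1 / (8 * (D k : ℝ) ^ 2 * (D k : ℝ) ^ gold) ≤ (p (k + 1) : ℝ) / D (k + 1) - p k / D k
  du : ∀ k, (p (k + 1) : ℝ) / D (k + 1) - p k / D k ≤ 3 / (2 * (D k : ℝ) ^ 2 * (D k : ℝ) ^ gold)
  bad : ∀ k, ∀ (n : ℕ) (l : ℤ),
    1 / 4 ≤ n * (D k * ((p (k + 1) : ℝ) / D (k + 1) - p k / D k)) → ¬ D (k + 1) ∣ n →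
      1 / (128 * (n : ℝ)) ≤ |(n : ℝ) * ((p (k + 1) : ℝ) / D (k + 1)) - l|

lemma exists_data : Nonempty Data := by
  classical
  let S := {s : ℕ × ℤ // 1 ≤ s.1 ∧ IsCoprime s.2 (s.1 : ℤ)}
  have hstep : ∀ (k : ℕ) (s : S), ∃ s' : S,
      72 * (s.1.1) ^ 3 + (s.1.1) ^ k ≤ s'.1.1 ∧
      1 / (8 * (s.1.1 : ℝ) ^ 2 * (s.1.1 : ℝ) ^ gold) ≤ (s'.1.2 : ℝ) / s'.1.1 - s.1.2 / s.1.1 ∧
      (s'.1.2 : ℝ) / s'.1.1 - s.1.2 / s.1.1 ≤ 3 / (2 * (s.1.1 : ℝ) ^ 2 * (s.1.1 : ℝ) ^ gold) ∧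
      ∀ (n : ℕ) (l : ℤ),
        1 / 4 ≤ n * (s.1.1 * ((s'.1.2 : ℝ) / s'.1.1 - s.1.2 / s.1.1)) → ¬ s'.1.1 ∣ n →
          1 / (128 * (n : ℝ)) ≤ |(n : ℝ) * ((s'.1.2 : ℝ) / s'.1.1) - l| := by
    intro k s
    obtain ⟨⟨D, p⟩, hD, hp⟩ := s
    have hX : 1 ≤ (D : ℝ) ^ gold := by
      apply Real.one_le_rpow
      · exact_mod_cast hD
      · have := gold_gt; linarith
    obtain ⟨D', p', h1, h2, h3, h4, h5, h6⟩ := exists_next D hD p hp ((D : ℝ) ^ gold) hX
      (72 * D ^ 3 + D ^ k)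
    exact ⟨⟨(D', p'), h1, h3⟩, h2, h4, h5, h6⟩
  choose nxt hn1 hn2 hn3 hn4 using hstep
  let s0 : S := ⟨(1, 0), le_rfl, by simpa using isCoprime_one_right⟩
  let f : ℕ → S := fun k => Nat.rec s0 (fun k s => nxt k s) k
  have hf : ∀ k, f (k + 1) = nxt k (f k) := fun k => rfl
  refine ⟨⟨fun k => (f k).1.1, fun k => (f k).1.2, rfl, rfl, fun k => (f k).2.1, ?_,
    fun k => (f k).2.2, ?_, ?_, ?_⟩⟩
  · intro k
    simp only [hf]
    exact hn1 k (f k)
  · intro k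
    simp only [hf]
    exact hn2 k (f k)
  · intro k
    simp only [hf]
    exact hn3 k (f k)
  · intro k n l
    simp only [hf]
    exact hn4 k (f k) n l

namespace Data

variable (S : Data)

/-- the increments -/
noncomputable def δ (k : ℕ) : ℝ := (S.p (k + 1) : ℝ) / S.D (k + 1) - S.p k / S.D k

lemma Dpos (k : ℕ) : (1 : ℝ) ≤ S.D k := by exact_mod_cast S.D1 k

lemma Dpos' (k : ℕ) : (0 : ℝ) < S.D k := lt_of_lt_of_le one_pos (S.Dpos k)

lemma X1 (k : ℕ) : 1 ≤ (S.D k : ℝ) ^ gold := by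
  apply Real.one_le_rpow (S.Dpos k)
  have := gold_gt; linarith

lemma XleD2 (k : ℕ) : (S.D k : ℝ) ^ gold ≤ (S.D k : ℝ) ^ 2 := by
  rw [← Real.rpow_natCast]
  apply Real.rpow_le_rpow_of_exponent_le (S.Dpos k)
  have := gold_lt; push_cast; linarith

lemma DleX (k : ℕ) : (S.D k : ℝ) ≤ (S.D k : ℝ) ^ gold := by
  conv_lhs => rw [← Real.rpow_one (S.D k : ℝ)]
  apply Real.rpow_le_rpow_of_exponent_le (S.Dpos k)
  have := gold_gt; linarith

lemma δpos (k : ℕ) : 0 < S.δ k := by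
  have h := S.dl k
  have := S.X1 k
  have := S.Dpos' k
  have h2 : 0 < 1 / (8 * (S.D k : ℝ) ^ 2 * (S.D k : ℝ) ^ gold) := by positivity
  exact lt_of_lt_of_le h2 h

lemma grow3 (k : ℕ) : 72 * (S.D k) ^ 3 ≤ S.D (k + 1) := le_trans (Nat.le_add_right _ _) (S.grow k)

lemma growk (k : ℕ) : (S.D k) ^ k ≤ S.D (k + 1) := le_trans (Nat.le_add_left _ _) (S.grow k)

lemma grow72 (k : ℕ) : 72 * S.D k ≤ S.D (k + 1) := by
  refine le_trans ?_ (S.grow3 k)
  have h := S.D1 k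
  have : S.D k ≤ (S.D k) ^ 3 := Nat.le_self_pow (by norm_num) _
  omega

lemma Dge (k : ℕ) : 72 ^ k ≤ S.D k := by
  induction k with
  | zero => simp [S.D0]
  | succ k ih =>
    have := S.grow72 k
    rw [pow_succ]
    omega

lemma Dgek (k : ℕ) : k ≤ S.D k := by
  refine le_trans ?_ (S.Dge k)
  exact (Nat.lt_pow_self (by norm_num)).le

/-- δ D is super-decreasing -/
lemma δD_decr (k : ℕ) : 6 * (S.δ (k + 1) * S.D (k + 1)) ≤ S.δ k * S.D k := by
  have h1 : S.δ (k + 1) ≤ _ := S.du (k + 1)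
  have h2 : _ ≤ S.δ k := S.dl k
  have hD := S.Dpos' k
  have hD' := S.Dpos' (k + 1)
  have hX := S.X1 k
  have hX' := S.X1 (k + 1)
  have hDX' := S.DleX (k + 1)
  have hXD := S.XleD2 k
  have hg : (72 : ℝ) * (S.D k : ℝ) ^ 3 ≤ S.D (k + 1) := by exact_mod_cast S.grow3 k
  set d : ℝ := (S.D k : ℝ) with hd
  set e : ℝ := (S.D (k + 1) : ℝ) with he
  set x : ℝ := d ^ gold with hx
  set y : ℝ := e ^ gold with hy
  have h3 : 6 * (S.δ (k + 1) * e) ≤ 9 / (e * y) := by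
    calc 6 * (S.δ (k + 1) * e) ≤ 6 * (3 / (2 * e ^ 2 * y) * e) := by gcongr
      _ = 9 / (e * y) := by field_simp; norm_num
  have h4 : 1 / (8 * d * x) ≤ S.δ k * d := by
    calc 1 / (8 * d * x) = 1 / (8 * d ^ 2 * x) * d := by field_simp
      _ ≤ _ := by gcongr
  have h5 : 9 / (e * y) ≤ 1 / (8 * d * x) := by
    rw [div_le_div_iff₀ (by positivity) (by positivity)]
    have h6 : 72 * (d * x) ≤ e := by
      calc 72 * (d * x) ≤ 72 * (d * d ^ 2) := by gcongr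
        _ = 72 * d ^ 3 := by ring
        _ ≤ e := hg
    nlinarith
  linarith

lemma δD_le (k j : ℕ) : S.δ (k + j) * S.D (k + j) ≤ (1 / 6) ^ j * (S.δ k * S.D k) := by
  induction j with
  | zero => simp
  | succ j ih =>
    have := S.δD_decr (k + j)
    rw [← add_assoc, pow_succ]
    linarith

lemma δD_upper (k : ℕ) : S.δ k * S.D k ≤ 3 / (2 * (S.D k : ℝ) * (S.D k : ℝ) ^ gold) := by
  have h1 : S.δ k ≤ _ := S.du k
  have hD := S.Dpos' k
  have hX := S.X1 k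
  calc S.δ k * S.D k ≤ 3 / (2 * (S.D k : ℝ) ^ 2 * (S.D k : ℝ) ^ gold) * S.D k := by gcongr
    _ = _ := by field_simp

lemma δD_lower (k : ℕ) : 1 / (8 * (S.D k : ℝ) * (S.D k : ℝ) ^ gold) ≤ S.δ k * S.D k := by
  have h1 : _ ≤ S.δ k := S.dl k
  have hD := S.Dpos' k
  have hX := S.X1 k
  calc 1 / (8 * (S.D k : ℝ) * (S.D k : ℝ) ^ gold)
      = 1 / (8 * (S.D k : ℝ) ^ 2 * (S.D k : ℝ) ^ gold) * S.D k := by field_simp
    _ ≤ _ := by gcongr

variable {m : ℕ} (hm : 0 < m)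

/-- the weight vectors -/
def w (k : ℕ) (i : Fin m) : ℕ := if k % m = i then 2 else 1

/-- the directions -/
def ν (m : ℕ) : ℕ → Fin m → ℕ
  | 0, _ => 0
  | (k + 1), i => ν m k i + S.D k * w k i

lemma w_ge (k : ℕ) (i : Fin m) : 1 ≤ w k i := by unfold w; split_ifs <;> norm_num
lemma w_le (k : ℕ) (i : Fin m) : w k i ≤ 2 := by unfold w; split_ifs <;> norm_num

lemma ν_le (k : ℕ) (i : Fin m) : S.ν m k i ≤ S.D k := by
  induction k with
  | zero => simp [ν]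
  | succ k ih =>
    have h1 := w_le k i
    have h2 := S.grow72 k
    have h3 : S.D k * w k i ≤ S.D k * 2 := Nat.mul_le_mul_left _ h1
    simp only [ν]
    omega

lemma ν_succ_le (k : ℕ) (i : Fin m) : S.ν m (k + 1) i ≤ 3 * S.D k := by
  have h1 := w_le k i
  have h2 := S.ν_le k i
  have h3 : S.D k * w k i ≤ S.D k * 2 := Nat.mul_le_mul_left _ h1
  simp only [ν]
  omega

lemma ν_succ_ge (k : ℕ) (i : Fin m) : S.D k ≤ S.ν m (k + 1) i := by
  have h1 := w_ge k i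
  have h3 : S.D k * 1 ≤ S.D k * w k i := Nat.mul_le_mul_left _ h1
  simp only [ν]
  omega

/-- N k b = ν_k · b -/
def N (m : ℕ) (k : ℕ) (b : Fin m → ℤ) : ℤ := ∑ i, (S.ν m k i : ℤ) * b i

/-- the sum of absolute values -/
def nrm {m : ℕ} (b : Fin m → ℤ) : ℤ := ∑ i, |b i|

lemma nrm_nonneg (b : Fin m → ℤ) : 0 ≤ nrm b := Finset.sum_nonneg (fun _ _ => abs_nonneg _)

lemma N_abs (k : ℕ) (b : Fin m → ℤ) : |S.N m (k + 1) b| ≤ 3 * S.D k * nrm b := by
  unfold N nrm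
  rw [Finset.mul_sum]
  refine (Finset.abs_sum_le_sum_abs _ _).trans (Finset.sum_le_sum fun i _ => ?_)
  rw [abs_mul]
  have h := S.ν_succ_le k i
  have h1 : |(S.ν m (k + 1) i : ℤ)| ≤ 3 * S.D k := by
    rw [abs_of_nonneg (by positivity)]
    exact_mod_cast h
  exact mul_le_mul_of_nonneg_right h1 (abs_nonneg _)

lemma N_zero (b : Fin m → ℤ) : S.N m 0 b = 0 := by simp [N, ν]

/-- W k b = w_k · b -/
def W (k : ℕ) (b : Fin m → ℤ) : ℤ := ∑ i, (w k i : ℤ) * b i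

lemma N_succ (k : ℕ) (b : Fin m → ℤ) : S.N m (k + 1) b = S.N m k b + S.D k * W k b := by
  unfold N W
  rw [Finset.mul_sum, ← Finset.sum_add_distrib]
  refine Finset.sum_congr rfl fun i _ => ?_
  simp only [ν]
  push_cast
  ring

/-- the limit point -/
noncomputable def Θ (m : ℕ) (i : Fin m) : ℝ := ∑' j, S.δ j * (S.ν m (j + 1) i : ℝ)

lemma term_bound (b : Fin m → ℤ) (k j : ℕ) :
    |S.δ (k + j) * (S.N m (k + j + 1) b : ℝ)| ≤ (1 / 6) ^ j * (3 * (S.δ k * S.D k) * nrm b) := by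
  have h1 : |(S.N m (k + j + 1) b : ℝ)| ≤ 3 * S.D (k + j) * nrm b := by
    exact_mod_cast S.N_abs (k + j) b
  have h2 := S.δpos (k + j)
  have h3 := S.δD_le k j
  have h4 : (0 : ℝ) ≤ nrm b := by exact_mod_cast nrm_nonneg b
  rw [abs_mul, abs_of_pos h2]
  calc S.δ (k + j) * |(S.N m (k + j + 1) b : ℝ)| ≤ S.δ (k + j) * (3 * S.D (k + j) * nrm b) := by gcongr
    _ = 3 * (S.δ (k + j) * S.D (k + j)) * nrm b := by ring
    _ ≤ 3 * ((1 / 6) ^ j * (S.δ k * S.D k)) * nrm b := by gcongr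
    _ = _ := by ring

lemma summ (b : Fin m → ℤ) (k : ℕ) : Summable (fun j => S.δ (k + j) * (S.N m (k + j + 1) b : ℝ)) := by
  apply Summable.of_norm_bounded (g := fun j => (1 / 6 : ℝ) ^ j * (3 * (S.δ k * S.D k) * nrm b))
  · exact (summable_geometric_of_lt_one (by norm_num) (by norm_num)).mul_right _
  · intro j
    rw [Real.norm_eq_abs]
    exact S.term_bound b k j

/-- the tail -/
noncomputable def E (m : ℕ) (k : ℕ) (b : Fin m → ℤ) : ℝ := ∑' j, S.δ (k + j) * (S.N m (k + j + 1) b : ℝ)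

lemma E_abs (k : ℕ) (b : Fin m → ℤ) : |S.E m k b| ≤ 6 * (S.δ k * S.D k) * nrm b := by
  have hg : Summable (fun j => (1 / 6 : ℝ) ^ j * (3 * (S.δ k * S.D k) * nrm b)) :=
    (summable_geometric_of_lt_one (by norm_num) (by norm_num)).mul_right _
  have h1 : ‖S.E m k b‖ ≤ ∑' j, (1 / 6 : ℝ) ^ j * (3 * (S.δ k * S.D k) * nrm b) := by
    apply tsum_of_norm_bounded hg.hasSum
    intro j
    rw [Real.norm_eq_abs]
    exact S.term_bound b k j
  rw [tsum_mul_right, tsum_geometric_of_lt_one (by norm_num) (by norm_num), Real.norm_eq_abs] at h1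
  have h4 : (0 : ℝ) ≤ nrm b := by exact_mod_cast nrm_nonneg b
  have h5 := S.δpos k
  have h6 := S.Dpos' k
  have h7 : 0 ≤ S.δ k * S.D k * nrm b := by positivity
  have e : (1 - 1 / 6 : ℝ)⁻¹ * (3 * (S.δ k * S.D k) * nrm b) = (18 / 5) * (S.δ k * S.D k * nrm b) := by
    norm_num; ring
  rw [e] at h1
  linarith

lemma lin (b : Fin m → ℤ) : ∑ i, S.Θ m i * b i = S.E m 0 b := by
  have hs : ∀ i : Fin m, Summable (fun j => S.δ j * (S.ν m (j + 1) i : ℝ)) := by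
    intro i
    have h := S.summ (Pi.single i 1) 0
    refine h.congr ?_
    intro j
    simp only [N, zero_add]
    congr 1
    rw [Finset.sum_eq_single i]
    · simp
    · intro b _ hb
      simp [Pi.single_eq_of_ne hb]
    · simp
  unfold Θ E
  simp_rw [← tsum_mul_right]
  rw [← Summable.tsum_finsetSum]
  · congr 1
    ext j
    simp only [N, zero_add]
    push_cast
    rw [Finset.mul_sum]
    refine Finset.sum_congr rfl fun i _ => ?_
    ring
  · intro i _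
    exact (hs i).mul_right _

/-- the form modulo 1 at stage k -/
lemma stage (b : Fin m → ℤ) (k : ℕ) :
    ∃ z : ℤ, ∑ i, S.Θ m i * b i = (S.p k : ℝ) / S.D k * S.N m k b + z + S.E m k b := by
  rw [lin]
  induction k with
  | zero => exact ⟨0, by simp [N_zero]⟩
  | succ k ih =>
    obtain ⟨z, hz⟩ := ih
    refine ⟨z - S.p k * W k b, ?_⟩
    rw [hz]
    have h1 : S.E m k b = S.δ k * (S.N m (k + 1) b : ℝ) + S.E m (k + 1) b := by
      unfold E
      rw [(S.summ b k).tsum_eq_zero_add]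
      simp only [add_zero]
      congr 1
      apply tsum_congr
      intro j
      rw [show k + (j + 1) = k + 1 + j by ring]
    rw [h1]
    have h2 : (S.N m k b : ℝ) = S.N m (k + 1) b - S.D k * W k b := by
      have := S.N_succ k b
      have h3 : S.N m k b = S.N m (k + 1) b - S.D k * W k b := by linarith
      rw [h3]
      push_cast
      ring
    rw [h2]
    have hD := (S.Dpos' k).ne'
    unfold δ
    push_cast
    field_simp
    ring

end Data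

end Pool.Agent.H967R2.PosForm
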